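import Mathlib

/-!
The statistic `minv` on the left cosets of the cyclic subgroup `Z_n = ⟨(1,2,...,n)⟩` of `S_n`.
Letters and positions are `0, ..., n-1`.
-/

namespace MP8386ec

open Equiv Finset

/-- the number of inversions of a permutation: pairs of positions `p < q` with `π q < π p` -/
def inv {n : ℕ} (π : Perm (Fin n)) : ℕ :=
  (univ.filter (fun p : Fin n × Fin n => p.1 < p.2 ∧ π p.2 < π p.1)).card

/-- the cyclic subgroup generated by the rotation `i ↦ i + 1 mod n` -/
def Zn (n : ℕ) : Subgroup (Perm (Fin n)) := Subgroup.zpowers (finRotate n)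

/-- the least number of inversions of the elements of a left coset of `Z_n` -/
noncomputable def minv {n : ℕ} (C : Perm (Fin n) ⧸ Zn n) : ℕ :=
  sInf {k | ∃ π : Perm (Fin n), (QuotientGroup.mk π : Perm (Fin n) ⧸ Zn n) = C ∧ inv π = k}

/-- the coefficient `a_{n,k}` of `q^k` in `M_n(q)`: the number of left cosets `C` of `Z_n` in `S_n`
with `minv C = k` -/
noncomputable def coeffM (n k : ℕ) : ℕ := Nat.card {C : Perm (Fin n) ⧸ Zn n // minv C = k}

end MP8386ec
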