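import Mathlib
import Pool.Agent.Lib_MP_8386ec_mi.Defs

/-!
Cosets of the cyclic subgroup `Z_n = ⟨(1,2,...,n)⟩` of `S_n` and the least number of inversions
`minv`: every coset has exactly one good representative.  Letters and positions are `0, ..., n-1`.
-/

namespace MP8386ec

open Equiv Finset

/-- sum of the first `i` letters -/
def S {n : ℕ} (π : Perm (Fin n)) (i : ℕ) : ℕ :=
  ∑ j ∈ univ.filter (fun j : Fin n => j.val < i), (π j).val

/-- the largest letter is not among the first `i` letters -/
def TopOK {n : ℕ} (π : Perm (Fin n)) (i : ℕ) : Prop :=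
  ∀ p : Fin n, (π p).val + 1 = n → i ≤ p.val

/-- the condition at the cut `i` -/
def Cond {n : ℕ} (π : Perm (Fin n)) (i : ℕ) : Prop :=
  2 * S π i < i * (n - 1) ∨ (2 * S π i = i * (n - 1) ∧ TopOK π i)

/-- good permutations: the distinguished representatives of the cosets -/
def Good {n : ℕ} (π : Perm (Fin n)) : Prop := ∀ i, 0 < i → i < n → Cond π i

theorem inv_eq_sum {n : ℕ} (π : Perm (Fin n)) :
    inv π = ∑ p : Fin n, ∑ q : Fin n, if (p < q ∧ π q < π p) then 1 else 0 := by
  rw [inv, Finset.card_filter, ← Finset.sum_product', Finset.univ_product_univ]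

/-- the number of smaller letters -/
theorem sum_lt_eq {n : ℕ} (π : Perm (Fin n)) (x : Fin n) :
    ∑ q : Fin n, (if π q < x then 1 else 0) = x.val := by
  rw [Equiv.sum_comp π (fun y => if y < x then 1 else 0), ← Finset.card_filter]
  rw [Finset.filter_gt_eq_Iio, Fin.card_Iio]

/-- inversions of a rotation by one step -/
theorem inv_rotate {m : ℕ} (π : Perm (Fin (m + 1))) :
    inv (π * finRotate (m + 1)) + 2 * (π 0).val = inv π + m := by
  set R : ℕ := ∑ i : Fin m, ∑ j : Fin m,
    if (i < j ∧ π (Fin.succ j) < π (Fin.succ i)) then 1 else 0 with hR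
  set A : ℕ := ∑ j : Fin m, if π (Fin.succ j) < π 0 then 1 else 0 with hA
  set B : ℕ := ∑ j : Fin m, if π 0 < π (Fin.succ j) then 1 else 0 with hB
  have h1 : inv π = A + R := by
    rw [inv_eq_sum, Fin.sum_univ_succ]
    congr 1
    · rw [Fin.sum_univ_succ]
      simp [hA, Fin.succ_pos]
    · apply Finset.sum_congr rfl
      intro i _
      rw [Fin.sum_univ_succ]
      simp
  have h2 : inv (π * finRotate (m + 1)) = R + B := by
    rw [inv_eq_sum, Fin.sum_univ_castSucc]
    have e0 : ∀ i : Fin m, (π * finRotate (m + 1)) (Fin.castSucc i) = π (Fin.succ i) := by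
      intro i
      simp [Perm.mul_apply]
    have e1 : (π * finRotate (m + 1)) (Fin.last m) = π 0 := by
      simp [Perm.mul_apply]
    have h3 : (∑ q : Fin (m + 1), if (Fin.last m < q ∧ (π * finRotate (m + 1)) q <
        (π * finRotate (m + 1)) (Fin.last m)) then 1 else 0) = 0 := by
      apply Finset.sum_eq_zero
      intro q _
      rw [if_neg]
      rintro ⟨h, _⟩
      exact absurd (Fin.le_last q) (not_le.mpr h)
    rw [h3, add_zero, hB, hR, ← Finset.sum_add_distrib]
    apply Finset.sum_congr rfl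
    intro i _
    rw [Fin.sum_univ_castSucc]
    congr 1
    · apply Finset.sum_congr rfl
      intro j _
      rw [e0, e0]
      simp
    · rw [e0, e1]
      simp [Fin.castSucc_lt_last]
  have h4 : A = (π 0).val := by
    have := sum_lt_eq π (π 0)
    rw [Fin.sum_univ_succ] at this
    simpa [hA] using this
  have h5 : A + B = m := by
    rw [hA, hB, ← Finset.sum_add_distrib]
    have : ∀ j ∈ (univ : Finset (Fin m)),
        ((if π (Fin.succ j) < π 0 then 1 else 0) + (if π 0 < π (Fin.succ j) then 1 else 0) : ℕ)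
          = 1 := by
      intro j _
      have hne : π (Fin.succ j) ≠ π 0 := by
        intro h
        exact absurd (π.injective h) (Fin.succ_ne_zero j)
      rcases lt_or_gt_of_ne hne with h | h
      · rw [if_pos h, if_neg (not_lt.mpr h.le)]
      · rw [if_neg (not_lt.mpr h.le), if_pos h]
    rw [Finset.sum_congr rfl this]
    simp
  omega

theorem rotate_val {m : ℕ} (j : Fin (m + 1)) :
    (finRotate (m + 1) j).val = (j.val + 1) % (m + 1) := by
  rw [finRotate_apply, Fin.val_add]
  rcases m with _ | m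
  · simp
  · simp

theorem rotate_pow_val {m : ℕ} (i : ℕ) (j : Fin (m + 1)) :
    ((finRotate (m + 1) ^ i) j).val = (j.val + i) % (m + 1) := by
  induction i with
  | zero => simp [Nat.mod_eq_of_lt j.isLt]
  | succ i ih =>
    rw [pow_succ', Perm.mul_apply, rotate_val, ih, Nat.mod_add_mod]
    rfl

theorem rotate_pow_card (m : ℕ) : finRotate (m + 1) ^ (m + 1) = 1 := by
  ext j
  rw [rotate_pow_val, Nat.add_mod_right, Nat.mod_eq_of_lt j.isLt]
  simp

theorem S_zero {n : ℕ} (π : Perm (Fin n)) : S π 0 = 0 := by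
  simp [S]

theorem S_succ {n : ℕ} (π : Perm (Fin n)) (i : ℕ) (hi : i < n) :
    S π (i + 1) = S π i + (π ⟨i, hi⟩).val := by
  unfold S
  have : univ.filter (fun j : Fin n => j.val < i + 1)
      = insert ⟨i, hi⟩ (univ.filter (fun j : Fin n => j.val < i)) := by
    ext j
    simp only [Finset.mem_filter, Finset.mem_univ, true_and, Finset.mem_insert, Fin.ext_iff]
    omega
  rw [this, Finset.sum_insert]
  · ring
  · simp

/-- inversions of a rotation -/
theorem inv_rotate_pow {m : ℕ} (π : Perm (Fin (m + 1))) (i : ℕ) (hi : i ≤ m + 1) :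
    inv (π * finRotate (m + 1) ^ i) + 2 * S π i = inv π + i * m := by
  induction i with
  | zero => simp [S_zero]
  | succ i ih =>
    have h1 := ih (by omega)
    have h2 := inv_rotate (π * finRotate (m + 1) ^ i)
    have h3 : (π * finRotate (m + 1) ^ i) 0 = π ⟨i, by omega⟩ := by
      rw [Perm.mul_apply]
      congr 1
      ext
      rw [rotate_pow_val]
      simp [Nat.mod_eq_of_lt (show i < m + 1 by omega)]
    rw [h3, mul_assoc, ← pow_succ] at h2
    have h4 := S_succ π i (by omega : i < m + 1)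
    rw [h4]
    have h5 : (i + 1) * m = i * m + m := by ring
    omega

/-- position of the largest letter -/
def pos {m : ℕ} (π : Perm (Fin (m + 1))) : ℕ := (π.symm (Fin.last m)).val

theorem pos_le {m : ℕ} (π : Perm (Fin (m + 1))) : pos π ≤ m := by
  unfold pos
  have := (π.symm (Fin.last m)).isLt
  omega

theorem topOK_iff {m : ℕ} (π : Perm (Fin (m + 1))) (i : ℕ) : TopOK π i ↔ i ≤ pos π := by
  unfold TopOK pos
  constructor
  · intro h
    apply h
    simp
  · intro h p hp
    have : π p = Fin.last m := by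
      ext
      simp only [Fin.val_last]
      omega
    rw [← this] at h
    simpa using h

theorem pos_rotate {m : ℕ} (π : Perm (Fin (m + 1))) (i : ℕ) (hi : i < m + 1) :
    (i ≤ pos π ∧ pos (π * finRotate (m + 1) ^ i) + i = pos π) ∨
    (pos π < i ∧ pos (π * finRotate (m + 1) ^ i) + i = pos π + (m + 1)) := by
  set x := π.symm (Fin.last m) with hx
  set y := (π * finRotate (m + 1) ^ i).symm (Fin.last m) with hy
  have h1 : (π * finRotate (m + 1) ^ i) y = Fin.last m := by
    rw [hy]
    simp
  have h2 : (finRotate (m + 1) ^ i) y = x := by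
    rw [Perm.mul_apply] at h1
    rw [hx, ← h1]
    simp
  have h3 : (y.val + i) % (m + 1) = x.val := by
    rw [← rotate_pow_val, h2]
  have hxlt := x.isLt
  have hylt := y.isLt
  have hp : pos π = x.val := rfl
  have hp' : pos (π * finRotate (m + 1) ^ i) = y.val := rfl
  rw [hp, hp']
  by_cases hc : y.val + i < m + 1
  · rw [Nat.mod_eq_of_lt hc] at h3
    left
    omega
  · have : (y.val + i) % (m + 1) = y.val + i - (m + 1) := by
      rw [Nat.mod_eq_sub_mod (by omega), Nat.mod_eq_of_lt (by omega)]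
    rw [this] at h3
    right
    omega

/-- the key minimised by the good representative -/
def key {m : ℕ} (π : Perm (Fin (m + 1))) : ℕ := inv π * (m + 1) + (m - pos π)

theorem cond_iff {m : ℕ} (π : Perm (Fin (m + 1))) (i : ℕ) (h0 : 0 < i) (hi : i < m + 1) :
    Cond π i ↔ key π < key (π * finRotate (m + 1) ^ i) := by
  have h1 := inv_rotate_pow π i hi.le
  have h2 := pos_rotate π i hi
  have h3 := pos_le π
  have h4 := pos_le (π * finRotate (m + 1) ^ i)
  unfold Cond key
  rw [topOK_iff]
  simp only [Nat.add_sub_cancel]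
  set D := inv (π * finRotate (m + 1) ^ i)
  set P := pos (π * finRotate (m + 1) ^ i)
  rcases lt_trichotomy (2 * S π i) (i * m) with h | h | h
  · have h5 : inv π + 1 ≤ D := by omega
    have h6 : (inv π + 1) * (m + 1) ≤ D * (m + 1) := Nat.mul_le_mul_right _ h5
    have h7 : (inv π + 1) * (m + 1) = inv π * (m + 1) + (m + 1) := by ring
    constructor
    · intro _
      omega
    · intro _
      left
      exact h
  · have h5 : D = inv π := by omega
    rw [h5]
    constructor
    · rintro (h' | ⟨_, h'⟩)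
      · omega
      · omega
    · intro h'
      right
      refine ⟨h, ?_⟩
      omega
  · have h5 : D + 1 ≤ inv π := by omega
    have h6 : (D + 1) * (m + 1) ≤ inv π * (m + 1) := Nat.mul_le_mul_right _ h5
    have h7 : (D + 1) * (m + 1) = D * (m + 1) + (m + 1) := by ring
    constructor
    · rintro (h' | ⟨h', _⟩)
      · omega
      · omega
    · intro h'
      omega

theorem mk_eq_iff {m : ℕ} (π σ : Perm (Fin (m + 1))) :
    (QuotientGroup.mk π : Perm (Fin (m + 1)) ⧸ Zn (m + 1)) = QuotientGroup.mk σ ↔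
      ∃ i, i < m + 1 ∧ σ = π * finRotate (m + 1) ^ i := by
  rw [QuotientGroup.eq, Zn, Subgroup.mem_zpowers_iff]
  constructor
  · rintro ⟨z, hz⟩
    have h1 : finRotate (m + 1) ^ (((m + 1 : ℕ)) : ℤ) = 1 := by
      rw [zpow_natCast]
      exact rotate_pow_card m
    rw [zpow_eq_zpow_emod z h1] at hz
    have h2 : 0 ≤ z % (((m + 1 : ℕ)) : ℤ) := Int.emod_nonneg _ (by positivity)
    have h3 : z % (((m + 1 : ℕ)) : ℤ) < ((m + 1 : ℕ) : ℤ) := Int.emod_lt_of_pos _ (by positivity)
    obtain ⟨i, hi⟩ := Int.eq_ofNat_of_zero_le h2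
    refine ⟨i, by omega, ?_⟩
    rw [hi, zpow_natCast] at hz
    rw [hz]
    simp
  · rintro ⟨i, _, hi⟩
    refine ⟨i, ?_⟩
    rw [hi, zpow_natCast]
    simp

theorem minv_good {m : ℕ} (π : Perm (Fin (m + 1))) (h : Good π) :
    minv (QuotientGroup.mk π : Perm (Fin (m + 1)) ⧸ Zn (m + 1)) = inv π := by
  apply le_antisymm
  · exact Nat.sInf_le ⟨π, rfl, rfl⟩
  · apply le_csInf
    · exact ⟨inv π, π, rfl, rfl⟩
    · rintro k ⟨σ, hσ, rfl⟩
      obtain ⟨i, hi, rfl⟩ := (mk_eq_iff π σ).mp hσ.symm
      rcases Nat.eq_zero_or_pos i with h0 | h0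
      · subst h0
        simp
      · have h1 := inv_rotate_pow π i hi.le
        have h2 := h i h0 hi
        unfold Cond at h2
        simp only [Nat.add_sub_cancel] at h2
        omega

theorem good_unique {m : ℕ} (π σ : Perm (Fin (m + 1))) (h : Good π) (h' : Good σ)
    (he : (QuotientGroup.mk π : Perm (Fin (m + 1)) ⧸ Zn (m + 1)) = QuotientGroup.mk σ) :
    π = σ := by
  obtain ⟨i, hi, rfl⟩ := (mk_eq_iff π σ).mp he
  rcases Nat.eq_zero_or_pos i with h0 | h0
  · subst h0
    simp
  · exfalso
    have h1 := (cond_iff π i h0 hi).mp (h i h0 hi)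
    have h2 := (cond_iff _ (m + 1 - i) (by omega) (by omega)).mp (h' (m + 1 - i) (by omega)
      (by omega))
    rw [mul_assoc, ← pow_add, show i + (m + 1 - i) = m + 1 by omega, rotate_pow_card,
      mul_one] at h2
    omega

theorem good_exists {m : ℕ} (π : Perm (Fin (m + 1))) :
    ∃ σ : Perm (Fin (m + 1)), Good σ ∧
      (QuotientGroup.mk σ : Perm (Fin (m + 1)) ⧸ Zn (m + 1)) = QuotientGroup.mk π := by
  classical
  set T : Finset (Perm (Fin (m + 1))) :=
    (Finset.range (m + 1)).image (fun i => π * finRotate (m + 1) ^ i) with hT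
  have hne : T.Nonempty := by
    refine ⟨π * finRotate (m + 1) ^ 0, ?_⟩
    rw [hT, Finset.mem_image]
    exact ⟨0, by simp, rfl⟩
  obtain ⟨σ, hσT, hσ⟩ := Finset.exists_min_image T key hne
  have hmem : ∀ i : ℕ, σ * finRotate (m + 1) ^ i ∈ T := by
    intro i
    rw [hT, Finset.mem_image] at hσT
    obtain ⟨j, _, rfl⟩ := hσT
    rw [hT, Finset.mem_image]
    refine ⟨(j + i) % (m + 1), ?_, ?_⟩
    · rw [Finset.mem_range]
      exact Nat.mod_lt _ (by omega)
    · rw [mul_assoc, ← pow_add]
      congr 1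
      rw [← pow_eq_pow_mod (j + i) (rotate_pow_card m)]
  refine ⟨σ, ?_, ?_⟩
  · intro i h0 hi
    rw [cond_iff σ i h0 hi]
    have h1 := hσ _ (hmem i)
    have h2 : key σ ≠ key (σ * finRotate (m + 1) ^ i) := by
      intro h
      have hp := pos_rotate σ i hi
      have h3 := pos_le σ
      have h4 := pos_le (σ * finRotate (m + 1) ^ i)
      unfold key at h
      have h5 : ∀ a b c d : ℕ, c < m + 1 → d < m + 1 → a * (m + 1) + c = b * (m + 1) + d →
          c = d := by
        intro a b c d hc hd he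
        have e1 : (a * (m + 1) + c) % (m + 1) = c := by
          rw [mul_comm, Nat.mul_add_mod, Nat.mod_eq_of_lt hc]
        have e2 : (b * (m + 1) + d) % (m + 1) = d := by
          rw [mul_comm, Nat.mul_add_mod, Nat.mod_eq_of_lt hd]
        rw [← e1, he, e2]
      have h6 := h5 _ _ _ _ (by omega) (by omega) h
      omega
    omega
  · rw [hT, Finset.mem_image] at hσT
    obtain ⟨j, hj, rfl⟩ := hσT
    rw [eq_comm, mk_eq_iff]
    exact ⟨j, by simpa using hj, rfl⟩

open Classical in
/-- `a_{n,k}` counts the good permutations with `k` inversions -/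
theorem coeffM_eq {n : ℕ} (hn : 0 < n) (k : ℕ) :
    coeffM n k = (univ.filter (fun π : Perm (Fin n) => Good π ∧ inv π = k)).card := by
  obtain ⟨m, rfl⟩ : ∃ m, n = m + 1 := ⟨n - 1, by omega⟩
  unfold coeffM
  rw [← Fintype.card_subtype, ← Nat.card_eq_fintype_card]
  symm
  apply Nat.card_congr
  refine Equiv.ofBijective (fun π => ⟨QuotientGroup.mk π.1, by
    rw [minv_good π.1 π.2.1]; exact π.2.2⟩) ⟨?_, ?_⟩
  · intro π σ h
    apply Subtype.ext
    apply good_unique π.1 σ.1 π.2.1 σ.2.1
    exact congrArg Subtype.val h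
  · rintro ⟨C, hC⟩
    obtain ⟨π, rfl⟩ := QuotientGroup.mk_surjective C
    obtain ⟨σ, hσ, he⟩ := good_exists π
    refine ⟨⟨σ, hσ, ?_⟩, ?_⟩
    · rw [← he, minv_good σ hσ] at hC
      exact hC
    · apply Subtype.ext
      exact he

end MP8386ec
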