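import Pool.Agent.Lib_MP_8386ec_mi.Basic

/-!
A symmetric chain decomposition of `S_n` compatible with the strong Bruhat order: every lower
ideal of the Bruhat order has weakly decreasing rank numbers from the middle rank on.
-/

namespace MP8386ec

open Equiv Finset

/-- predicates closed under undoing an inversion (lower ideals of the strong Bruhat order) -/
def Lower {n : ℕ} (G : Perm (Fin n) → Prop) : Prop :=
  ∀ π : Perm (Fin n), ∀ p q : Fin n, p < q → π q < π p → G π → G (π * swap p q)

/-- insert a last letter `v` -/
def ins {n : ℕ} (σ : Perm (Fin n)) (v : Fin (n + 1)) : Perm (Fin (n + 1)) :=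
  finSuccEquivLast.trans ((optionCongr σ).trans (finSuccEquiv' v).symm)

@[simp] theorem ins_castSucc {n : ℕ} (σ : Perm (Fin n)) (v : Fin (n + 1)) (i : Fin n) :
    ins σ v (Fin.castSucc i) = v.succAbove (σ i) := by
  simp [ins]

@[simp] theorem ins_last {n : ℕ} (σ : Perm (Fin n)) (v : Fin (n + 1)) :
    ins σ v (Fin.last n) = v := by
  simp [ins]

theorem ins_injective {n : ℕ} : Function.Injective
    (fun x : Perm (Fin n) × Fin (n + 1) => ins x.1 x.2) := by
  rintro ⟨σ, v⟩ ⟨τ, w⟩ h
  simp only at h
  have h1 : v = w := by
    have := congrArg (fun f => f (Fin.last n)) h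
    simpa using this
  subst h1
  have h2 : σ = τ := by
    ext i
    have := congrArg (fun f => f (Fin.castSucc i)) h
    simp only [ins_castSucc] at this
    have := Fin.succAbove_right_injective this
    rw [this]
  rw [h2]

/-- the bijection `S_n × [0,n] ≃ S_{n+1}` -/
noncomputable def insEquiv (n : ℕ) : Perm (Fin n) × Fin (n + 1) ≃ Perm (Fin (n + 1)) :=
  Equiv.ofBijective _ ((Fintype.bijective_iff_injective_and_card _).mpr ⟨ins_injective, by
    rw [Fintype.card_prod, Fintype.card_perm, Fintype.card_perm, Fintype.card_fin,
      Fintype.card_fin, Nat.factorial_succ]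
    ring⟩)

theorem insEquiv_apply {n : ℕ} (σ : Perm (Fin n)) (v : Fin (n + 1)) :
    insEquiv n (σ, v) = ins σ v := rfl

theorem inv_ins {n : ℕ} (σ : Perm (Fin n)) (v : Fin (n + 1)) :
    inv (ins σ v) = inv σ + (n - v.val) := by
  rw [inv_eq_sum, inv_eq_sum, Fin.sum_univ_castSucc]
  have h3 : (∑ q : Fin (n + 1), if (Fin.last n < q ∧ (ins σ v) q <
      (ins σ v) (Fin.last n)) then 1 else 0) = 0 := by
    apply Finset.sum_eq_zero
    intro q _
    rw [if_neg]
    rintro ⟨h, _⟩
    exact absurd (Fin.le_last q) (not_le.mpr h)
  rw [h3, add_zero]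
  have h4 : ∀ i : Fin n, (∑ q : Fin (n + 1), if (Fin.castSucc i < q ∧ (ins σ v) q <
      (ins σ v) (Fin.castSucc i)) then 1 else 0) =
      (∑ q : Fin n, if (i < q ∧ σ q < σ i) then 1 else 0) + (if v.val ≤ (σ i).val then 1 else 0) := by
    intro i
    rw [Fin.sum_univ_castSucc]
    congr 1
    · apply Finset.sum_congr rfl
      intro j _
      simp only [ins_castSucc, Fin.castSucc_lt_castSucc_iff, Fin.succAbove_lt_succAbove_iff]
    · simp only [ins_castSucc, ins_last, Fin.castSucc_lt_last, true_and,
        Fin.lt_succAbove_iff_le_castSucc]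
      rfl
  rw [Finset.sum_congr rfl (fun i _ => h4 i), Finset.sum_add_distrib]
  congr 1
  rw [Equiv.sum_comp σ (fun x : Fin n => if v.val ≤ x.val then 1 else 0), ← Finset.card_filter]
  have : ((univ.filter (fun x : Fin n => v.val ≤ x.val)).card : ℕ)
      + (univ.filter (fun x : Fin n => ¬ (v.val ≤ x.val))).card = n := by
    rw [Finset.card_filter_add_card_filter_not]
    simp
  have h5 : (univ.filter (fun x : Fin n => ¬ (v.val ≤ x.val))).card = v.val := by
    have h6 := v.isLt
    have h7 : (univ.filter (fun x : Fin n => ¬ (v.val ≤ x.val))).card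
        = (Finset.range v.val).card := by
      apply Finset.card_bij (fun (a : Fin n) _ => a.val)
      · intro a ha
        simp only [Finset.mem_filter, Finset.mem_univ, true_and] at ha
        simp only [Finset.mem_range]
        omega
      · intro a _ b _ h
        exact Fin.ext h
      · intro b hb
        simp only [Finset.mem_range] at hb
        exact ⟨⟨b, by omega⟩, by simp; omega, rfl⟩
    rw [h7, Finset.card_range]
  omega

/-- the moves of `S_n` lift to moves of `S_{n+1}` -/
theorem lower_ins {n : ℕ} (G : Perm (Fin (n + 1)) → Prop) (hG : Lower G) (v : Fin (n + 1)) :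
    Lower (fun σ : Perm (Fin n) => G (ins σ v)) := by
  intro σ p q hpq hσ h
  have h1 := hG (ins σ v) (Fin.castSucc p) (Fin.castSucc q)
    (by simpa using hpq) (by simpa using hσ) h
  have h2 : ins σ v * swap (Fin.castSucc p) (Fin.castSucc q) = ins (σ * swap p q) v := by
    ext x
    refine Fin.lastCases ?_ (fun i => ?_) x
    · rw [Perm.mul_apply, swap_apply_of_ne_of_ne]
      · simp
      · exact (Fin.castSucc_lt_last p).ne'
      · exact (Fin.castSucc_lt_last q).ne'
    · rw [Perm.mul_apply, ins_castSucc, Perm.mul_apply]
      rcases eq_or_ne i p with rfl | h1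
      · simp
      · rcases eq_or_ne i q with rfl | h2
        · simp
        · rw [swap_apply_of_ne_of_ne, swap_apply_of_ne_of_ne h1 h2, ins_castSucc]
          · intro h
            exact h1 (Fin.castSucc_injective _ h)
          · intro h
            exact h2 (Fin.castSucc_injective _ h)
  rw [h2] at h1
  exact h1

/-- raising the last letter is a move down -/
theorem lower_last {n : ℕ} (G : Perm (Fin (n + 1)) → Prop) (hG : Lower G) (σ : Perm (Fin n))
    (v w : Fin (n + 1)) (hw : w.val = v.val + 1) (h : G (ins σ v)) : G (ins σ w) := by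
  have hvlt : v.val < n := by
    have := w.isLt
    omega
  set u : Fin n := ⟨v.val, hvlt⟩ with hu
  set i : Fin n := σ.symm u with hi
  have hui : σ i = u := by rw [hi]; simp
  have h1 : ins σ v (Fin.castSucc i) = w := by
    rw [ins_castSucc, hui]
    ext
    rw [Fin.succAbove_of_le_castSucc]
    · simp [hu, hw]
    · rw [Fin.le_def]
      simp [hu]
  have h2 := hG (ins σ v) (Fin.castSucc i) (Fin.last n) (Fin.castSucc_lt_last i) (by
    rw [h1, ins_last, Fin.lt_def]
    omega) h
  have h3 : ins σ v * swap (Fin.castSucc i) (Fin.last n) = ins σ w := by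
    ext x
    refine Fin.lastCases ?_ (fun j => ?_) x
    · rw [Perm.mul_apply, swap_apply_right, h1, ins_last]
    · rw [Perm.mul_apply]
      rcases eq_or_ne j i with rfl | hji
      · rw [swap_apply_left, ins_last, ins_castSucc, hui, Fin.succAbove_of_castSucc_lt]
        · simp [hu]
        · rw [Fin.lt_def]
          simp [hu, hw]
      · rw [swap_apply_of_ne_of_ne, ins_castSucc, ins_castSucc]
        · have hne : σ j ≠ u := by
            intro hh
            apply hji
            rw [hi, ← hh]
            simp
          have hne' : (σ j).val ≠ v.val := by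
            intro hh
            apply hne
            ext
            rw [hh]
          rcases lt_or_gt_of_ne hne' with hl | hl
          · rw [Fin.succAbove_of_castSucc_lt, Fin.succAbove_of_castSucc_lt]
            · rw [Fin.lt_def]
              simp only [Fin.val_castSucc]
              omega
            · rw [Fin.lt_def]
              simp only [Fin.val_castSucc]
              omega
          · rw [Fin.succAbove_of_le_castSucc, Fin.succAbove_of_le_castSucc]
            · rw [Fin.le_def]
              simp only [Fin.val_castSucc]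
              omega
            · rw [Fin.le_def]
              simp only [Fin.val_castSucc]
              omega
        · intro hh
          exact hji (Fin.castSucc_injective _ hh)
        · exact (Fin.castSucc_lt_last j).ne
  rw [h3] at h2
  exact h2

/-- symmetric chains: `r` is the rank of the bottom of the chain, `d` the step down -/
theorem chains (n : ℕ) : ∃ (r : Perm (Fin n) → ℕ) (d : Perm (Fin n) → Perm (Fin n)),
    (∀ x, r x ≤ inv x) ∧ (∀ x, 2 * (inv x + r x) ≤ n * (n - 1)) ∧
    (∀ x, r x < inv x → inv (d x) + 1 = inv x ∧ r (d x) = r x ∧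
      ∀ G : Perm (Fin n) → Prop, Lower G → G x → G (d x)) ∧
    (∀ x y, r x < inv x → r y < inv y → d x = d y → x = y) := by
  induction n with
  | zero =>
    have h0 : ∀ x : Perm (Fin 0), inv x = 0 := by
      intro x
      simp [inv]
    refine ⟨fun _ => 0, id, ?_, ?_, ?_, ?_⟩
    · intro x
      exact Nat.zero_le _
    · intro x
      simp [h0 x]
    · intro x hx
      rw [h0 x] at hx
      exact absurd hx (lt_irrefl 0)
    · intro x y hx _ _
      rw [h0 x] at hx
      exact absurd hx (lt_irrefl 0)
  | succ n ih =>
    obtain ⟨r, d, h1, h2, h3, h4⟩ := ih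
    set N : ℕ := n * (n - 1) / 2 with hN
    have hN2 : 2 * N = n * (n - 1) := by
      rw [hN, Nat.mul_div_cancel']
      rcases n with _ | n
      · simp
      · rw [Nat.add_sub_cancel, mul_comm]
        exact (Nat.even_mul_succ_self n).two_dvd
    have hN3 : (n + 1) * (n + 1 - 1) = 2 * N + 2 * n := by
      rw [hN2]
      rcases n with _ | n
      · simp
      · simp only [Nat.add_sub_cancel]
        ring
    have h2' : ∀ x, inv x + r x ≤ N := by
      intro x
      have := h2 x
      omega
    -- the code of a permutation
    set e := insEquiv n with he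
    have hinv : ∀ σ v, inv (e (σ, v)) = inv σ + (n - v.val) := by
      intro σ v
      rw [he, insEquiv_apply, inv_ins]
    set R : Perm (Fin n) × Fin (n + 1) → ℕ :=
      fun z => min (N - inv z.1) (r z.1 + (n - z.2.val)) with hR
    set D : Perm (Fin n) × Fin (n + 1) → Perm (Fin n) × Fin (n + 1) :=
      fun z => if r z.1 + (n - z.2.val) + inv z.1 ≤ N then (d z.1, z.2)
        else (z.1, if h : z.2.val + 1 < n + 1 then ⟨z.2.val + 1, h⟩ else z.2) with hD
    have hD1 : ∀ z, r z.1 + (n - z.2.val) + inv z.1 ≤ N → D z = (d z.1, z.2) := by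
      intro z hz
      rw [hD]
      simp only
      rw [if_pos hz]
    have hD2 : ∀ z, ¬ (r z.1 + (n - z.2.val) + inv z.1 ≤ N) → (D z).1 = z.1 ∧
        (D z).2.val = z.2.val + 1 := by
      intro z hz
      have h5 := h2' z.1
      have h6 := z.2.isLt
      rw [hD]
      simp only
      rw [if_neg hz]
      refine ⟨rfl, ?_⟩
      rw [dif_pos (by omega)]
    refine ⟨fun π => R (e.symm π), fun π => e (D (e.symm π)), ?_, ?_, ?_, ?_⟩
    · intro π
      obtain ⟨z, rfl⟩ := e.surjective π
      have h5 := h1 z.1
      have h6 := h2' z.1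
      have h7 := hinv z.1 z.2
      simp only [Equiv.symm_apply_apply]
      rw [show e z = e (z.1, z.2) from rfl, h7, hR]
      simp only
      omega
    · intro π
      obtain ⟨z, rfl⟩ := e.surjective π
      have h5 := h1 z.1
      have h6 := h2' z.1
      have h7 := hinv z.1 z.2
      have h8 := z.2.isLt
      simp only [Equiv.symm_apply_apply]
      rw [show e z = e (z.1, z.2) from rfl, h7, hR, hN3]
      simp only
      omega
    · intro π hπ
      obtain ⟨z, rfl⟩ := e.surjective π
      simp only [Equiv.symm_apply_apply] at hπ ⊢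
      obtain ⟨σ, v⟩ := z
      have h5 := h1 σ
      have h6 := h2' σ
      have h7 := hinv σ v
      have h8 := v.isLt
      rw [h7] at hπ ⊢
      by_cases hc : r σ + (n - v.val) + inv σ ≤ N
      · have hD' := hD1 (σ, v) hc
        rw [hD']
        simp only [hR] at hπ ⊢
        have h9 : r σ < inv σ := by omega
        obtain ⟨h10, h11, h12⟩ := h3 σ h9
        rw [hinv, h11]
        refine ⟨by omega, by omega, ?_⟩
        intro G hG hGz
        exact h12 _ (lower_ins G hG v) hGz
      · obtain ⟨hD3, hD4⟩ := hD2 (σ, v) hc
        simp only at hD3 hD4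
        have hDz : D (σ, v) = (σ, (D (σ, v)).2) := Prod.ext hD3 rfl
        rw [hDz]
        simp only [hR] at hπ ⊢
        rw [hinv, hD4]
        refine ⟨by omega, by omega, ?_⟩
        intro G hG hGz
        exact lower_last G hG σ v _ hD4 hGz
    · intro π π' hπ hπ' h
      obtain ⟨z, rfl⟩ := e.surjective π
      obtain ⟨z', rfl⟩ := e.surjective π'
      simp only [Equiv.symm_apply_apply] at hπ hπ' h
      have hh := e.injective h
      obtain ⟨σ, v⟩ := z
      obtain ⟨τ, w⟩ := z'
      congr 1
      have a5 := h1 σ
      have a6 := h2' σ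
      have a7 := hinv σ v
      have a8 := v.isLt
      have b5 := h1 τ
      have b6 := h2' τ
      have b7 := hinv τ w
      have b8 := w.isLt
      rw [a7] at hπ
      rw [b7] at hπ'
      simp only [hR] at hπ hπ'
      by_cases hc : r σ + (n - v.val) + inv σ ≤ N
      · rw [hD1 (σ, v) hc] at hh
        have hσ : r σ < inv σ := by omega
        obtain ⟨a10, a11, _⟩ := h3 σ hσ
        by_cases hc' : r τ + (n - w.val) + inv τ ≤ N
        · rw [hD1 (τ, w) hc'] at hh
          have hτ : r τ < inv τ := by omega
          obtain ⟨h10, h11⟩ := Prod.mk.inj hh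
          simp only at h10 h11
          rw [h4 σ τ hσ hτ h10, h11]
        · exfalso
          obtain ⟨hD3, hD4⟩ := hD2 (τ, w) hc'
          rw [← hh] at hD3 hD4
          simp only at hD3 hD4
          rw [← hD3] at hc'
          omega
      · obtain ⟨hD3, hD4⟩ := hD2 (σ, v) hc
        by_cases hc' : r τ + (n - w.val) + inv τ ≤ N
        · exfalso
          rw [hD1 (τ, w) hc'] at hh
          have hτ : r τ < inv τ := by omega
          obtain ⟨b10, b11, _⟩ := h3 τ hτ
          rw [hh] at hD3 hD4
          simp only at hD3 hD4
          rw [← hD3] at hc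
          omega
        · obtain ⟨hD3', hD4'⟩ := hD2 (τ, w) hc'
          rw [hh] at hD3 hD4
          simp only at hD3 hD4 hD3' hD4'
          have h10 : σ = τ := hD3.symm.trans hD3'
          have h11 : v = w := by
            ext
            omega
          rw [h10, h11]

open Classical in
/-- lower ideals of the strong Bruhat order have decreasing rank numbers from the middle on -/
theorem lower_card {n : ℕ} (G : Perm (Fin n) → Prop) (hG : Lower G) (k : ℕ)
    (hk : n * (n - 1) < 4 * (k + 1)) :
    (univ.filter (fun π : Perm (Fin n) => G π ∧ inv π = k + 1)).card ≤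
      (univ.filter (fun π : Perm (Fin n) => G π ∧ inv π = k)).card := by
  obtain ⟨r, d, h1, h2, h3, h4⟩ := chains n
  have h5 : ∀ π : Perm (Fin n), inv π = k + 1 → r π < inv π := by
    intro π hπ
    have := h2 π
    omega
  apply Finset.card_le_card_of_injOn d
  · intro π hπ
    simp only [Finset.coe_filter, Finset.mem_univ, true_and, Set.mem_ofPred_eq] at hπ ⊢
    obtain ⟨h6, h7⟩ := hπ
    obtain ⟨h8, _, h9⟩ := h3 π (h5 π h7)
    exact ⟨h9 G hG h6, by omega⟩
  · intro π hπ σ hσ h
    simp only [Finset.coe_filter, Finset.mem_univ, true_and, Set.mem_ofPred_eq] at hπ hσ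
    exact h4 π σ (h5 π hπ.2) (h5 σ hσ.2) h

end MP8386ec
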