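import Mathlib

/-!
Symmetric `q`-numbers `U h j = e^{h (j-1)} + e^{h (j-3)} + ... + e^{-h (j-1)}` (`q = e^{-2h}`).
-/

namespace MP8386ec

open Finset

/-- the symmetric `q`-number -/
noncomputable def U (h : ℝ) (j : ℕ) : ℝ :=
  ∑ i ∈ range j, Real.exp (h * ((j : ℝ) - 1 - 2 * (i : ℝ)))

theorem sinh_mul_U (h : ℝ) (j : ℕ) : Real.sinh h * U h j = Real.sinh ((j : ℝ) * h) := by
  unfold U
  rw [Finset.mul_sum]
  have h1 : ∀ i ∈ range j, Real.sinh h * Real.exp (h * ((j : ℝ) - 1 - 2 * (i : ℝ))) =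
      Real.exp (h * ((j : ℝ) - 2 * (i : ℝ))) / 2 -
        Real.exp (h * ((j : ℝ) - 2 * ((i + 1 : ℕ) : ℝ))) / 2 := by
    intro i _
    rw [Real.sinh_eq, sub_div, sub_mul, div_mul_eq_mul_div, div_mul_eq_mul_div, ← Real.exp_add,
      ← Real.exp_add]
    congr 2
    · congr 1
      ring
    · congr 1
      push_cast
      ring
  rw [Finset.sum_congr rfl h1, Finset.sum_range_sub', Real.sinh_eq]
  simp only [Nat.cast_zero, mul_zero, sub_zero]
  rw [← sub_div]
  congr 2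
  · congr 1
    ring
  · congr 1
    ring

theorem U_eq_cosh (h : ℝ) (j : ℕ) :
    U h j = ∑ i ∈ range j, Real.cosh (h * ((j : ℝ) - 1 - 2 * (i : ℝ))) := by
  have h1 : U h j = ∑ i ∈ range j, Real.exp (-(h * ((j : ℝ) - 1 - 2 * (i : ℝ)))) := by
    unfold U
    rw [← Finset.sum_range_reflect]
    apply Finset.sum_congr rfl
    intro i hi
    rw [Finset.mem_range] at hi
    congr 1
    have : ((j - 1 - i : ℕ) : ℝ) = (j : ℝ) - 1 - i := by
      rw [Nat.cast_sub (by omega), Nat.cast_sub (by omega)]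
      push_cast
      ring
    rw [this]
    ring
  have h2 : U h j + U h j = 2 * ∑ i ∈ range j, Real.cosh (h * ((j : ℝ) - 1 - 2 * (i : ℝ))) := by
    nth_rewrite 2 [h1]
    unfold U
    rw [← Finset.sum_add_distrib, Finset.mul_sum]
    apply Finset.sum_congr rfl
    intro i _
    rw [Real.cosh_eq]
    ring
  linarith

theorem U_le (h : ℝ) (j : ℕ) : U h j ≤ j * Real.cosh ((j : ℝ) * h) := by
  rw [U_eq_cosh]
  have h1 : ∀ i ∈ range j, Real.cosh (h * ((j : ℝ) - 1 - 2 * (i : ℝ))) ≤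
      Real.cosh ((j : ℝ) * h) := by
    intro i hi
    rw [Finset.mem_range] at hi
    rw [Real.cosh_le_cosh, mul_comm (j : ℝ) h, abs_mul, abs_mul]
    apply mul_le_mul_of_nonneg_left _ (abs_nonneg h)
    have h2 : (i : ℝ) + 1 ≤ j := by exact_mod_cast hi
    have h3 : (0 : ℝ) ≤ i := by positivity
    rw [abs_of_nonneg (by linarith : (0 : ℝ) ≤ (j : ℝ)), abs_le]
    constructor <;> linarith
  refine (Finset.sum_le_sum h1).trans ?_
  rw [Finset.sum_const, Finset.card_range, nsmul_eq_mul]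

theorem U_nonneg (h : ℝ) (j : ℕ) : 0 ≤ U h j := by
  unfold U
  positivity

theorem U_add {h : ℝ} (hh : 0 < h) (j s : ℕ) :
    U h (j + s) = U h j * Real.cosh ((s : ℝ) * h) + Real.cosh ((j : ℝ) * h) * U h s := by
  have h1 : 0 < Real.sinh h := Real.sinh_pos_iff.mpr hh
  apply mul_left_cancel₀ h1.ne'
  rw [sinh_mul_U, mul_add, ← mul_assoc, sinh_mul_U]
  have h2 : Real.sinh h * (Real.cosh ((j : ℝ) * h) * U h s) =
      Real.cosh ((j : ℝ) * h) * Real.sinh ((s : ℝ) * h) := by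
    rw [← sinh_mul_U]
    ring
  rw [h2]
  push_cast
  rw [add_mul, Real.sinh_add]

theorem U_super {h : ℝ} (hh : 0 < h) (j s : ℕ) :
    ((j : ℝ) + s) * (U h j * U h s) ≤ j * s * U h (j + s) := by
  rw [U_add hh]
  have h1 := U_le h j
  have h2 := U_le h s
  have h3 := U_nonneg h j
  have h4 := U_nonneg h s
  have h5 : (0 : ℝ) ≤ j := by positivity
  have h6 : (0 : ℝ) ≤ s := by positivity
  have h7 : j * U h j * U h s ≤ j * U h j * (s * Real.cosh ((s : ℝ) * h)) :=
    mul_le_mul_of_nonneg_left h2 (by positivity)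
  have h8 : s * U h s * U h j ≤ s * U h s * (j * Real.cosh ((j : ℝ) * h)) :=
    mul_le_mul_of_nonneg_left h1 (by positivity)
  nlinarith

theorem cosh_ge (x : ℝ) : 1 + x ^ 2 / 2 ≤ Real.cosh x := by
  have h1 : Real.cosh x = 1 + 2 * Real.sinh (x / 2) ^ 2 := by
    have h2 := Real.cosh_two_mul (x / 2)
    rw [show 2 * (x / 2) = x by ring, Real.cosh_sq] at h2
    linarith
  rw [h1]
  have h2 : (x / 2) ^ 2 ≤ Real.sinh (x / 2) ^ 2 := by
    rw [sq_le_sq]
    rcases le_total 0 (x / 2) with h | h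
    · rw [abs_of_nonneg h]
      exact (Real.self_le_sinh_iff.mpr h).trans (le_abs_self _)
    · rw [abs_of_nonpos h]
      have h3 := Real.self_le_sinh_iff.mpr (by linarith : (0 : ℝ) ≤ -(x / 2))
      rw [Real.sinh_neg] at h3
      exact h3.trans (neg_le_abs _)
  nlinarith

theorem sum_sq_range (s : ℕ) :
    ∑ i ∈ range s, ((s : ℝ) - 1 - 2 * (i : ℝ)) ^ 2 = s * ((s : ℝ) ^ 2 - 1) / 3 := by
  have h1 : ∀ n : ℕ, ∑ i ∈ range n, (i : ℝ) = n * ((n : ℝ) - 1) / 2 := by
    intro n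
    induction n with
    | zero => simp
    | succ n ih =>
      rw [Finset.sum_range_succ, ih]
      push_cast
      ring
  have h2 : ∀ n : ℕ, ∑ i ∈ range n, (i : ℝ) ^ 2 = n * ((n : ℝ) - 1) * (2 * n - 1) / 6 := by
    intro n
    induction n with
    | zero => simp
    | succ n ih =>
      rw [Finset.sum_range_succ, ih]
      push_cast
      ring
  have h3 : ∀ i ∈ range s, ((s : ℝ) - 1 - 2 * (i : ℝ)) ^ 2 =
      ((s : ℝ) - 1) ^ 2 - 4 * ((s : ℝ) - 1) * (i : ℝ) + 4 * (i : ℝ) ^ 2 := by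
    intro i _
    ring
  rw [Finset.sum_congr rfl h3, Finset.sum_add_distrib, Finset.sum_sub_distrib, ← Finset.mul_sum,
    ← Finset.mul_sum, h1, h2, Finset.sum_const, Finset.card_range, nsmul_eq_mul]
  ring

theorem U_ge (h : ℝ) (s : ℕ) : s * (1 + h ^ 2 * ((s : ℝ) ^ 2 - 1) / 6) ≤ U h s := by
  rw [U_eq_cosh]
  have h1 : ∀ i ∈ range s, 1 + h ^ 2 / 2 * ((s : ℝ) - 1 - 2 * (i : ℝ)) ^ 2 ≤
      Real.cosh (h * ((s : ℝ) - 1 - 2 * (i : ℝ))) := by
    intro i _
    refine le_trans (le_of_eq ?_) (cosh_ge _)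
    ring
  refine le_trans (le_of_eq ?_) (Finset.sum_le_sum h1)
  rw [Finset.sum_add_distrib, ← Finset.mul_sum, sum_sq_range, Finset.sum_const, Finset.card_range,
    nsmul_eq_mul]
  ring

/-- the normalised symmetric `q`-number with index `j + 1` -/
noncomputable def u (h : ℝ) (j : ℕ) : ℝ := U h (j + 1) / ((j : ℝ) + 1)

theorem u_nonneg (h : ℝ) (j : ℕ) : 0 ≤ u h j := by
  unfold u
  have := U_nonneg h (j + 1)
  positivity

theorem u_pos (h : ℝ) (j : ℕ) : 0 < u h j := by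
  unfold u
  have h1 := U_ge h (j + 1)
  have h2 : (0 : ℝ) < ((j + 1 : ℕ) : ℝ) * (1 + h ^ 2 * ((((j + 1 : ℕ)) : ℝ) ^ 2 - 1) / 6) := by
    have h3 : (0 : ℝ) ≤ h ^ 2 * ((((j + 1 : ℕ)) : ℝ) ^ 2 - 1) / 6 := by
      have h4 : (1 : ℝ) ≤ ((j + 1 : ℕ) : ℝ) := by
        push_cast
        have : (0 : ℝ) ≤ j := by positivity
        linarith
      have h5 : (0 : ℝ) ≤ ((j + 1 : ℕ) : ℝ) ^ 2 - 1 := by nlinarith
      positivity
    positivity
  have h3 : 0 < U h (j + 1) := lt_of_lt_of_le h2 h1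
  positivity

theorem u_le (h : ℝ) (j : ℕ) : u h j ≤ Real.exp (((j : ℝ) + 1) ^ 2 * h ^ 2 / 2) := by
  unfold u
  have h1 := U_le h (j + 1)
  have h2 := Real.cosh_le_exp_half_sq (((j + 1 : ℕ) : ℝ) * h)
  have h3 : (0 : ℝ) < (j : ℝ) + 1 := by positivity
  rw [div_le_iff₀ h3]
  push_cast at h1 h2
  have h4 : (((j : ℝ) + 1) * h) ^ 2 / 2 = ((j : ℝ) + 1) ^ 2 * h ^ 2 / 2 := by ring
  rw [h4] at h2
  nlinarith

/-- superadditivity -/
theorem u_super {h : ℝ} (hh : 0 < h) (j s : ℕ) (hs : 0 < s) :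
    u h j * (U h s / s) ≤ u h (s + j) := by
  have h1 := U_super hh (j + 1) s
  have hs' : (0 : ℝ) < s := by exact_mod_cast hs
  have hj' : (0 : ℝ) < (j : ℝ) + 1 := by positivity
  unfold u
  rw [show s + j + 1 = j + 1 + s by ring]
  push_cast at h1 ⊢
  rw [div_mul_div_comm, div_le_div_iff₀ (by positivity) (by positivity)]
  nlinarith

theorem prod_u_le (h : ℝ) (m : ℕ) :
    ∏ j ∈ range m, u h j ≤ Real.exp (h ^ 2 * (m : ℝ) ^ 3 / 2) := by
  induction m with
  | zero => simp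
  | succ m ih =>
    rw [Finset.prod_range_succ]
    have h1 := u_le h m
    have h2 := u_nonneg h m
    refine (mul_le_mul ih h1 h2 (Real.exp_pos _).le).trans ?_
    rw [← Real.exp_add, Real.exp_le_exp]
    push_cast
    have hm : (0 : ℝ) ≤ m := by positivity
    have hh : 0 ≤ h ^ 2 := sq_nonneg h
    have h3 : (m : ℝ) ^ 3 + ((m : ℝ) + 1) ^ 2 ≤ ((m : ℝ) + 1) ^ 3 := by nlinarith [sq_nonneg (m : ℝ)]
    nlinarith

/-- the product for `n` against the products for `s` and `i`, `n = s + i` -/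
theorem prod_u_split {h : ℝ} (hh : 0 < h) (s i : ℕ) (hs : 0 < s) :
    (∏ j ∈ range s, u h j) * (∏ j ∈ range i, u h j) * (U h s / s) ^ i ≤
      ∏ j ∈ range (s + i), u h j := by
  rw [Finset.prod_range_add, mul_assoc]
  apply mul_le_mul_of_nonneg_left
  · rw [← Finset.card_range i, ← Finset.prod_const, Finset.card_range, ← Finset.prod_mul_distrib]
    apply Finset.prod_le_prod
    · intro j _
      have h1 := u_nonneg h j
      have h2 := U_nonneg h s
      positivity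
    · intro j _
      exact u_super hh j s hs
  · apply Finset.prod_nonneg
    intro j _
    exact u_nonneg h j

/-- the `q`-factorial, `q = e^{-2h}` -/
theorem prod_geom (h : ℝ) (m : ℕ) :
    ∏ j ∈ range m, ∑ i ∈ range (j + 1), Real.exp (-(2 * h)) ^ i =
      Real.exp (-(h * ((m : ℝ) * ((m : ℝ) - 1) / 2))) * (m.factorial : ℝ) * ∏ j ∈ range m, u h j := by
  induction m with
  | zero => simp
  | succ m ih =>
    rw [Finset.prod_range_succ, ih, Finset.prod_range_succ, Nat.factorial_succ]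
    have h1 : ∑ i ∈ range (m + 1), Real.exp (-(2 * h)) ^ i =
        Real.exp (-(h * m)) * (((m : ℝ) + 1) * u h m) := by
      unfold u
      rw [mul_div_cancel₀ _ (by positivity : ((m : ℝ) + 1) ≠ 0)]
      unfold U
      rw [Finset.mul_sum]
      apply Finset.sum_congr rfl
      intro i _
      rw [← Real.exp_nat_mul, ← Real.exp_add]
      congr 1
      push_cast
      ring
    rw [h1]
    have h2 : Real.exp (-(h * (((m + 1 : ℕ) : ℝ) * (((m + 1 : ℕ) : ℝ) - 1) / 2))) =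
        Real.exp (-(h * ((m : ℝ) * ((m : ℝ) - 1) / 2))) * Real.exp (-(h * m)) := by
      rw [← Real.exp_add]
      congr 1
      push_cast
      ring
    rw [h2]
    push_cast
    ring

end MP8386ec
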