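import Pool.Agent.Lib_MP_8386ec_mi.Chains

/-!
The good permutations form a lower ideal of the strong Bruhat order; the numbers `a_{n,k}`
decrease weakly from `n(n-1)/4` on.
-/

namespace MP8386ec

open Equiv Finset

theorem S_swap_of_iff {n : ℕ} (π : Perm (Fin n)) (p q : Fin n) (i : ℕ)
    (h : p.val < i ↔ q.val < i) : S (π * swap p q) i = S π i := by
  unfold S
  apply Finset.sum_equiv (swap p q)
  · intro x
    simp only [Finset.mem_filter, Finset.mem_univ, true_and]
    rcases eq_or_ne x p with rfl | h1
    · rw [swap_apply_left]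
      exact h
    · rcases eq_or_ne x q with rfl | h2
      · rw [swap_apply_right]
        exact h.symm
      · rw [swap_apply_of_ne_of_ne h1 h2]
  · intro x _
    rfl

theorem S_swap_lt {n : ℕ} (π : Perm (Fin n)) (p q : Fin n) (i : ℕ)
    (hp : p.val < i) (hq : i ≤ q.val) (h : π q < π p) : S (π * swap p q) i < S π i := by
  unfold S
  apply Finset.sum_lt_sum
  · intro x hx
    simp only [Finset.mem_filter, Finset.mem_univ, true_and] at hx
    rw [Perm.mul_apply]
    rcases eq_or_ne x p with rfl | h1
    · rw [swap_apply_left]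
      exact (Fin.lt_def.mp h).le
    · rcases eq_or_ne x q with rfl | h2
      · omega
      · rw [swap_apply_of_ne_of_ne h1 h2]
  · refine ⟨p, ?_, ?_⟩
    · simp [hp]
    · rw [Perm.mul_apply, swap_apply_left]
      exact h

theorem topOK_swap {n : ℕ} (π : Perm (Fin n)) (p q : Fin n) (i : ℕ)
    (hpq : p < q) (h : π q < π p) (hT : TopOK π i) : TopOK (π * swap p q) i := by
  intro x hx
  rw [Perm.mul_apply] at hx
  rw [Fin.lt_def] at hpq h
  rcases eq_or_ne x p with rfl | h1
  · rw [swap_apply_left] at hx
    have := (π x).isLt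
    omega
  · rcases eq_or_ne x q with rfl | h2
    · rw [swap_apply_right] at hx
      have := hT p hx
      omega
    · rw [swap_apply_of_ne_of_ne h1 h2] at hx
      exact hT x hx

/-- the good permutations form a lower ideal of the strong Bruhat order -/
theorem good_lower (n : ℕ) : Lower (Good : Perm (Fin n) → Prop) := by
  intro π p q hpq h hG i h0 hi
  have hC := hG i h0 hi
  have hpq' := Fin.lt_def.mp hpq
  by_cases hc : p.val < i ∧ i ≤ q.val
  · have h1 := S_swap_lt π p q i hc.1 hc.2 h
    left
    rcases hC with hC | ⟨hC, _⟩ <;> omega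
  · have h1 := S_swap_of_iff π p q i (by omega)
    rcases hC with hC | ⟨hC, hT⟩
    · left
      omega
    · right
      exact ⟨by omega, topOK_swap π p q i hpq h hT⟩

/-- the upper half: `a_{n,k+1} ≤ a_{n,k}` for `4 (k+1) > n (n-1)` -/
theorem upper_half (n k : ℕ) (hn : 0 < n) (hk : n * (n - 1) < 4 * (k + 1)) :
    coeffM n (k + 1) ≤ coeffM n k := by
  rw [coeffM_eq hn, coeffM_eq hn]
  exact lower_card Good (good_lower n) k hk

end MP8386ec
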