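import Pool.Agent.Lib_MP_8386ec_mi.Window
import Pool.Agent.Lib_MP_8386ec_mi.Upper

/-!
The lower part, for all `n`: `a_{n,k} ≤ a_{n,k+1}` for `8 (k + 1) + 8 n ≤ n ^ 2`.
-/

namespace MP8386ec

open Equiv Finset

/-- number of inversions across the cut `i` -/
def cut {n : ℕ} (i : ℕ) (π : Perm (Fin n)) : ℕ :=
  (univ.filter (fun p : Fin n × Fin n => (p.1.val < i ∧ i ≤ p.2.val) ∧ π p.2 < π p.1)).card

theorem S_eq_cut {n : ℕ} (π : Perm (Fin n)) (i : ℕ) (hi : i ≤ n) :
    2 * S π i = 2 * cut i π + i * (i - 1) := by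
  set T : Finset (Fin n) := univ.filter (fun j : Fin n => j.val < i) with hT
  have hTc : T.card = i := by
    have h7 : T.card = (Finset.range i).card := by
      apply Finset.card_bij (fun (a : Fin n) _ => a.val)
      · intro a ha
        simp only [hT, Finset.mem_filter, Finset.mem_univ, true_and] at ha
        simp only [Finset.mem_range]
        omega
      · intro a _ b _ h
        exact Fin.ext h
      · intro b hb
        simp only [Finset.mem_range] at hb
        exact ⟨⟨b, by omega⟩, by simp [hT]; omega, rfl⟩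
    rw [h7, Finset.card_range]
  have h1 : S π i = (univ.filter (fun p : Fin n × Fin n => p.1.val < i ∧ π p.2 < π p.1)).card := by
    unfold S
    rw [Finset.card_filter, ← Finset.univ_product_univ, Finset.sum_product, Finset.sum_filter]
    apply Finset.sum_congr rfl
    intro p _
    split_ifs with hp
    · rw [← sum_lt_eq π (π p)]
      apply Finset.sum_congr rfl
      intro q _
      simp [hp]
    · symm
      apply Finset.sum_eq_zero
      intro q _
      simp [hp]
  set B := (univ.filter (fun p : Fin n × Fin n => (p.1.val < i ∧ p.2.val < i) ∧ π p.2 < π p.1))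
    with hB
  have h2 : S π i = cut i π + B.card := by
    rw [h1]
    unfold cut
    rw [hB, ← Finset.card_union_of_disjoint]
    · congr 1
      ext ⟨p, q⟩
      simp only [Finset.mem_union, Finset.mem_filter, Finset.mem_univ, true_and]
      have := lt_or_ge q.val i
      tauto
    · rw [Finset.disjoint_left]
      rintro ⟨p, q⟩
      simp only [Finset.mem_filter, Finset.mem_univ, true_and, not_and]
      rintro ⟨⟨_, h⟩, _⟩ ⟨_, h'⟩
      omega
  set B' := (univ.filter (fun p : Fin n × Fin n => (p.1.val < i ∧ p.2.val < i) ∧ π p.1 < π p.2))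
    with hB'
  have h3 : B.card = B'.card := by
    apply Finset.card_equiv (Equiv.prodComm _ _)
    rintro ⟨p, q⟩
    simp only [hB, hB', Finset.mem_filter, Finset.mem_univ, true_and, Equiv.prodComm_apply,
      Prod.swap_prod_mk]
    tauto
  have h4 : B.card + B'.card = (Finset.offDiag T).card := by
    rw [← Finset.card_union_of_disjoint]
    · congr 1
      ext ⟨p, q⟩
      simp only [hB, hB', hT, Finset.mem_union, Finset.mem_filter, Finset.mem_univ, true_and,
        Finset.mem_offDiag]
      constructor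
      · rintro (⟨h, h'⟩ | ⟨h, h'⟩)
        · refine ⟨h.1, h.2, ?_⟩
          rintro rfl
          exact lt_irrefl _ h'
        · refine ⟨h.1, h.2, ?_⟩
          rintro rfl
          exact lt_irrefl _ h'
      · rintro ⟨h, h', hne⟩
        have hne' : π p ≠ π q := fun hh => hne (π.injective hh)
        rcases lt_or_gt_of_ne hne' with h'' | h''
        · right
          exact ⟨⟨h, h'⟩, h''⟩
        · left
          exact ⟨⟨h, h'⟩, h''⟩
    · rw [Finset.disjoint_left]
      rintro ⟨p, q⟩
      simp only [hB, hB', Finset.mem_filter, Finset.mem_univ, true_and, not_and]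
      rintro ⟨_, h⟩ _ h'
      exact absurd h (not_lt.mpr h'.le)
  rw [Finset.offDiag_card, hTc] at h4
  rw [h2, Nat.mul_sub, mul_one]
  omega

theorem cut_le {n : ℕ} (π : Perm (Fin n)) (a b i : ℕ) (ha : a ≤ i) (hb : i ≤ b) (hbn : b ≤ n) :
    cut i π ≤ outer a b π + (i - a) * (b - i) := by
  classical
  set T1 : Finset (Fin n) := univ.filter (fun j : Fin n => a ≤ j.val ∧ j.val < i) with hT1
  set T2 : Finset (Fin n) := univ.filter (fun j : Fin n => i ≤ j.val ∧ j.val < b) with hT2
  have hc : ∀ c d : ℕ, c ≤ d → d ≤ n →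
      (univ.filter (fun j : Fin n => c ≤ j.val ∧ j.val < d)).card = d - c := by
    intro c d hcd hdn
    have h7 : (univ.filter (fun j : Fin n => c ≤ j.val ∧ j.val < d)).card
        = (Finset.Ico c d).card := by
      apply Finset.card_bij (fun (a : Fin n) _ => a.val)
      · intro a ha
        simp only [Finset.mem_filter, Finset.mem_univ, true_and] at ha
        simp only [Finset.mem_Ico]
        omega
      · intro a _ b _ h
        exact Fin.ext h
      · intro b hb
        simp only [Finset.mem_Ico] at hb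
        exact ⟨⟨b, by omega⟩, by simp; omega, rfl⟩
    rw [h7, Nat.card_Ico]
  have h1 : (T1 ×ˢ T2).card = (i - a) * (b - i) := by
    rw [Finset.card_product, hT1, hT2, hc a i ha (by omega), hc i b hb hbn]
  rw [← h1]
  unfold cut outer
  refine (Finset.card_le_card ?_).trans (Finset.card_union_le _ _)
  rintro ⟨p, q⟩
  simp only [hT1, hT2, Finset.mem_union, Finset.mem_filter, Finset.mem_univ, true_and,
    Finset.mem_product, Fin.lt_def]
  rintro ⟨⟨h1, h2⟩, h3⟩
  by_cases h4 : p.val < a ∨ b ≤ q.val
  · left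
    exact ⟨⟨by omega, h4⟩, h3⟩
  · right
    omega

/-- the cuts inside the window are strict whatever the arrangement of its letters -/
theorem strict_cut {n : ℕ} (π : Perm (Fin n)) (a i : ℕ) (ha : a < i) (hi : i < n - a)
    (h : 2 * outer a (n - a) π + n * n / 4 < 2 * (a * (n - a))) : 2 * S π i < i * (n - 1) := by
  have h1 := S_eq_cut π i (by omega)
  have h2 := cut_le π a (n - a) i ha.le hi.le (by omega)
  obtain ⟨s, rfl⟩ : ∃ s, i = a + s := ⟨i - a, by omega⟩
  obtain ⟨t, ht⟩ : ∃ t, n = 2 * a + s + t := ⟨n - (2 * a + s), by omega⟩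
  subst ht
  have e1 : 2 * a + s + t - a = a + s + t := by omega
  have e2 : a + s + t - (a + s) = t := by omega
  have e3 : a + s - a = s := by omega
  rw [e1] at h h2
  rw [e2, e3] at h2
  have h3 : (a + s) * (a + t) ≤ (2 * a + s + t) * (2 * a + s + t) / 4 := by
    rw [Nat.le_div_iff_mul_le (by norm_num)]
    have := Nat.mul_self_le_mul_self (Nat.zero_le 0)
    zify
    nlinarith [sq_nonneg ((s : ℤ) - t)]
  have h4 : 2 * cut (a + s) π < (a + s) * (a + t) := by
    have h5 : 2 * (a * (a + s + t)) + 2 * (s * t) = 2 * ((a + s) * (a + t)) := by ring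
    omega
  have h6 : (a + s) * (a + t) + (a + s) * (a + s - 1) = (a + s) * (2 * a + s + t - 1) := by
    rw [← Nat.mul_add]
    congr 1
    omega
  omega

/-- the window parameter: the condition -/
def WinOK {n : ℕ} (π : Perm (Fin n)) (a : ℕ) : Prop :=
  n ≤ 2 * a + 1 ∨ 2 * outer a (n - a) π + n * n / 4 < 2 * (a * (n - a))

theorem S_ext {n : ℕ} (a m : ℕ) (h : a + m ≤ n) (σ : Perm (Fin m)) (π : Perm (Fin n)) (i : ℕ)
    (hi : i ≤ a ∨ a + m ≤ i) : S (π * ext a m h σ) i = S π i := by
  unfold S
  apply Finset.sum_equiv (ext a m h σ)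
  · intro x
    simp only [Finset.mem_filter, Finset.mem_univ, true_and]
    have := ext_cases a m h σ x
    omega
  · intro x _
    rfl

theorem topOK_ext {n : ℕ} (a m : ℕ) (h : a + m ≤ n) (σ : Perm (Fin m)) (π : Perm (Fin n)) (i : ℕ)
    (hi : i ≤ a ∨ a + m ≤ i) (hT : TopOK π i) : TopOK (π * ext a m h σ) i := by
  intro x hx
  rw [Perm.mul_apply] at hx
  have h1 := hT _ hx
  have := ext_cases a m h σ x
  omega

theorem cond_ext {n : ℕ} (a m : ℕ) (h : a + m ≤ n) (σ : Perm (Fin m)) (π : Perm (Fin n)) (i : ℕ)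
    (hi : i ≤ a ∨ a + m ≤ i) (hC : Cond π i) : Cond (π * ext a m h σ) i := by
  rcases hC with hC | ⟨hC, hT⟩
  · left
    rw [S_ext a m h σ π i hi]
    exact hC
  · right
    rw [S_ext a m h σ π i hi]
    exact ⟨hC, topOK_ext a m h σ π i hi hT⟩

/-- good permutations with window parameter `a` -/
def GoodW {n : ℕ} (a : ℕ) (π : Perm (Fin n)) : Prop :=
  Good π ∧ WinOK π a ∧ ∀ a', a' < a → ¬ WinOK π a'

theorem goodW_ext {n : ℕ} (a m : ℕ) (h : a + m ≤ n) (hm : a + m = n - a) (π : Perm (Fin n))
    (σ : Perm (Fin m)) (hG : GoodW a π) : GoodW a (π * ext a m h σ) := by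
  obtain ⟨hG1, hG2, hG3⟩ := hG
  have hO : outer a (n - a) (π * ext a m h σ) = outer a (n - a) π :=
    outer_ext a m h σ π a (n - a) le_rfl hm.le
  have hW : WinOK (π * ext a m h σ) a := by
    unfold WinOK at hG2 ⊢
    rw [hO]
    exact hG2
  refine ⟨?_, hW, ?_⟩
  · intro i h0 hi
    by_cases hc : i ≤ a ∨ a + m ≤ i
    · exact cond_ext a m h σ π i hc (hG1 i h0 hi)
    · left
      rcases hW with hW | hW
      · omega
      · exact strict_cut _ a i (by omega) (by omega) hW
  · intro a' ha'
    have := hG3 a' ha'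
    unfold WinOK at this ⊢
    rw [outer_ext a m h σ π a' (n - a') ha'.le (by omega)]
    exact this

theorem goodW_arith (n a E E' k : ℕ) (hn : 2 ≤ n) (ha : 0 < a) (ha2 : 2 * a ≤ n)
    (h2 : 2 * ((a - 1) * (n - (a - 1))) ≤ 2 * E' + n * n / 4) (hE : E' ≤ E)
    (hk : 8 * (k + 1) + 8 * n ≤ n ^ 2) :
    4 * k < (n - 2 * a) * (n - 2 * a - 1) + 4 * E := by
  obtain ⟨b, rfl⟩ : ∃ b, a = b + 1 := ⟨a - 1, by omega⟩
  obtain ⟨m, rfl⟩ : ∃ m, n = 2 * (b + 1) + m := ⟨n - 2 * (b + 1), by omega⟩
  have e1 : 2 * (b + 1) + m - 2 * (b + 1) = m := by omega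
  have e2 : b + 1 - 1 = b := by omega
  have e3 : 2 * (b + 1) + m - b = b + 2 + m := by omega
  rw [e1]
  rw [e2, e3] at h2
  have h3 : (2 * (b + 1) + m) * (2 * (b + 1) + m) / 4 * 4 ≤
      (2 * (b + 1) + m) * (2 * (b + 1) + m) := Nat.div_mul_le_self _ _
  set Q := (2 * (b + 1) + m) * (2 * (b + 1) + m) / 4
  rcases m with _ | m
  · simp only [Nat.zero_mul, zero_add]
    simp only [add_zero] at *
    nlinarith
  · have e4 : m + 1 - 1 = m := by omega
    rw [e4]
    by_cases hc : 10 * (b + 1) ≤ 2 * (b + 1) + (m + 1) + 1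
    · nlinarith
    · nlinarith

open Classical in
/-- the lower part, for all `n` -/
theorem lower_part (n k : ℕ) (hk : 8 * (k + 1) + 8 * n ≤ n ^ 2) :
    coeffM n k ≤ coeffM n (k + 1) := by
  have hn : 2 ≤ n := by
    by_contra hc
    have : n ^ 2 ≤ 8 * n := by nlinarith
    omega
  rw [coeffM_eq (by omega), coeffM_eq (by omega)]
  have hex : ∀ π : Perm (Fin n), ∃ a, WinOK π a := by
    intro π
    exact ⟨n, Or.inl (by omega)⟩
  set w : Perm (Fin n) → ℕ := fun π => Nat.find (hex π) with hw
  have hwle : ∀ π, w π ≤ n / 2 := by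
    intro π
    exact Nat.find_min' (hex π) (Or.inl (by omega))
  have hsum : ∀ j : ℕ, (univ.filter (fun π : Perm (Fin n) => Good π ∧ inv π = j)).card =
      ∑ a ∈ Finset.range (n / 2 + 1),
        (univ.filter (fun π : Perm (Fin n) => GoodW a π ∧ inv π = j)).card := by
    intro j
    rw [Finset.card_eq_sum_card_fiberwise (f := w) (t := Finset.range (n / 2 + 1))]
    · apply Finset.sum_congr rfl
      intro a _
      congr 1
      ext π
      simp only [Finset.mem_filter, Finset.mem_univ, true_and]
      unfold GoodW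
      rw [hw]
      simp only
      rw [Nat.find_eq_iff]
      tauto
    · intro π _
      simp only [Finset.coe_range, Set.mem_Iio]
      have := hwle π
      omega
  rw [hsum, hsum]
  apply Finset.sum_le_sum
  intro a ha
  simp only [Finset.mem_range] at ha
  apply window_mono a (n - 2 * a) (by omega) (GoodW a)
  · intro π σ hG
    exact goodW_ext a (n - 2 * a) (by omega) (by omega) π σ hG
  · intro π hG
    obtain ⟨_, hG2, hG3⟩ := hG
    have ha0 : 0 < a := by
      by_contra h0
      have h0' : a = 0 := by omega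
      subst h0'
      unfold WinOK at hG2
      omega
    have h1 := hG3 (a - 1) (by omega)
    unfold WinOK at h1
    push Not at h1
    rw [show a + (n - 2 * a) = n - a by omega]
    exact goodW_arith n a (outer a (n - a) π) (outer (a - 1) (n - (a - 1)) π) k hn ha0 (by omega)
      h1.2 (outer_mono _ _ _ _ (by omega) (by omega) π) hk

end MP8386ec
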