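import Pool.Agent.Lib_MP_8386ec_mi.Step

/-!
The lower part up to `n ^ 2 / 4 - o(n ^ 2)`: the choice of the parameters.
-/

namespace MP8386ec

open Equiv Finset

theorem exp_half_le {y : ℝ} (h0 : 0 ≤ y) (h1 : y ≤ 1) : Real.exp (y / 2) ≤ 1 + y := by
  have h2 : 1 - y / 2 ≤ Real.exp (-(y / 2)) := by
    have := Real.add_one_le_exp (-(y / 2))
    linarith
  have h3 : Real.exp (y / 2) * Real.exp (-(y / 2)) = 1 := by
    rw [← Real.exp_add]
    simp
  have h4 : 0 < Real.exp (y / 2) := Real.exp_pos _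
  have h5 : Real.exp (y / 2) * (1 - y / 2) ≤ 1 :=
    (mul_le_mul_of_nonneg_left h2 h4.le).trans_eq h3
  have h6 : (1 : ℝ) ≤ (1 + y) * (1 - y / 2) := by nlinarith
  exact le_of_mul_le_mul_right (h5.trans h6) (by linarith)

theorem one_sub_exp_ge {y : ℝ} (h0 : 0 ≤ y) (h1 : y ≤ 1) : y / 2 ≤ 1 - Real.exp (-y) := by
  have h2 : 1 + y ≤ Real.exp y := by
    have := Real.add_one_le_exp y
    linarith
  have h3 : Real.exp y * Real.exp (-y) = 1 := by
    rw [← Real.exp_add]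
    simp
  have h4 : 0 < Real.exp (-y) := Real.exp_pos _
  have h5 : (1 + y) * Real.exp (-y) ≤ 1 :=
    (mul_le_mul_of_nonneg_right h2 h4.le).trans_eq h3
  have h6 : Real.exp (-y) ≤ 1 - y / 2 := by
    refine le_of_mul_le_mul_left (h5.trans ?_) (by linarith : (0 : ℝ) < 1 + y)
    nlinarith
  linarith

theorem nums {n k : ℕ} {X : ℝ} (hX : X = 45 * (Real.log n / n) ^ ((1 : ℝ) / 3))
    (hk : (k : ℝ) + 1 ≤ (n : ℝ) ^ 2 * (1 / 4 - X)) :
    2 ≤ n ∧ 0 < X ∧ X < 1 / 4 ∧ (n : ℝ) * X ^ 3 = 91125 * Real.log n := by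
  have hk0 : (0 : ℝ) ≤ k := Nat.cast_nonneg k
  have hn : 2 ≤ n := by
    by_contra hcon
    have h1 : n = 0 ∨ n = 1 := by omega
    rcases h1 with h1 | h1
    · rw [h1] at hk
      norm_num at hk
      linarith
    · rw [h1] at hk hX
      have h2 : X = 0 := by
        rw [hX]
        simp
      rw [h2] at hk
      norm_num at hk
      linarith
  have hnR : (2 : ℝ) ≤ n := by exact_mod_cast hn
  have hlog : 0 < Real.log n := Real.log_pos (by linarith)
  have hq : 0 < Real.log n / n := div_pos hlog (by linarith)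
  have hX0 : 0 < X := by
    rw [hX]
    exact mul_pos (by norm_num) (Real.rpow_pos_of_pos hq _)
  have hX1 : X < 1 / 4 := by
    by_contra hcon
    push Not at hcon
    have h1 : (n : ℝ) ^ 2 * (1 / 4 - X) ≤ 0 :=
      mul_nonpos_of_nonneg_of_nonpos (by positivity) (by linarith)
    linarith
  refine ⟨hn, hX0, hX1, ?_⟩
  have h3 : ((Real.log n / n) ^ ((1 : ℝ) / 3)) ^ 3 = Real.log n / n := by
    rw [← Real.rpow_natCast, ← Real.rpow_mul hq.le]
    norm_num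
  rw [hX, mul_pow, h3]
  field_simp
  norm_num

/-- the hypotheses of the inductive step -/
theorem step_at {n k : ℕ} {X : ℝ} (hX : X = 45 * (Real.log n / n) ^ ((1 : ℝ) / 3))
    (hk : (k : ℝ) + 1 ≤ (n : ℝ) ^ 2 * (1 / 4 - X))
    (hmono : ∀ j ≤ k, coeffM n j ≤ coeffM n k) : coeffM n k < coeffM n (k + 1) := by
  obtain ⟨hn, hX0, hX1, hX3⟩ := nums hX hk
  set L := Real.log (n : ℝ) with hL
  set x : ℝ := (n : ℝ) with hx
  have hx2 : (2 : ℝ) ≤ x := by rw [hx]; exact_mod_cast hn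
  have hx0 : (0 : ℝ) < x := by linarith
  have hk0 : (0 : ℝ) ≤ k := Nat.cast_nonneg k
  have hL2 : (69 / 100 : ℝ) ≤ L := by
    have h1 : Real.log 2 ≤ L := Real.log_le_log (by norm_num) hx2
    have h2 := Real.log_two_gt_d9
    linarith
  -- `n X ^ 2 ≥ 364500 L`, `n X ≥ 10 ^ 6`
  have hX2 : 364500 * L ≤ x * X ^ 2 := by
    have h1 : x * X ^ 2 * X = 91125 * L := by rw [← hX3]; ring
    have h2 : 0 ≤ x * X ^ 2 := by positivity
    nlinarith
  have hX1' : 1000000 ≤ x * X := by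
    have h1 : x * X * X = x * X ^ 2 := by ring
    have h2 : 0 ≤ x * X := by positivity
    nlinarith
  have hkn : 4 * ((k : ℝ) + 1) ≤ x ^ 2 := by nlinarith [sq_nonneg x, mul_pos (pow_pos hx0 2) hX0]
  -- the tilt for `n`
  have hlogn : ∀ m : ℕ, 0 < m → m ≤ n →
      Real.log ((m * (m - 1) / 2 + 1 : ℕ) : ℝ) ≤ 2 * L := by
    intro m hm hmn
    have h1 : m * (m - 1) / 2 + 1 ≤ n ^ 2 := by
      have h2 : m * (m - 1) ≤ n * (n - 1) := Nat.mul_le_mul hmn (Nat.sub_le_sub_right hmn 1)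
      have h3 : n * (n - 1) + n = n ^ 2 := by
        obtain ⟨t, ht⟩ : ∃ t, n = t + 1 := ⟨n - 1, by omega⟩
        rw [ht]
        simp only [Nat.add_sub_cancel]
        ring
      omega
    have h4 : ((m * (m - 1) / 2 + 1 : ℕ) : ℝ) ≤ (n : ℝ) ^ 2 := by exact_mod_cast h1
    calc Real.log ((m * (m - 1) / 2 + 1 : ℕ) : ℝ) ≤ Real.log ((n : ℝ) ^ 2) :=
          Real.log_le_log (by positivity) h4
      _ = 2 * L := by
          rw [Real.log_pow]
          push_cast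
          rfl
  have hHn : (3 / 4 : ℝ) * (x ^ 2 * X) ≤ x * (x - 1) / 4 - ((k : ℝ) + 1) := by nlinarith
  have hHn0 : 0 < x ^ 2 * X := by positivity
  obtain ⟨hr0, hr1⟩ := rat_le n k (by omega) (x * (x - 1) / 4 - ((k : ℝ) + 1)) rfl (by linarith)
    (by
      have h1 := hlogn n (by omega) le_rfl
      have h2 : ((3 / 4 : ℝ) * (x ^ 2 * X)) ^ 2 ≤ (x * (x - 1) / 4 - ((k : ℝ) + 1)) ^ 2 :=
        pow_le_pow_left₀ (by positivity) hHn 2
      refine le_trans ?_ h2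
      have h3 : x ^ 3 * Real.log ((n * (n - 1) / 2 + 1 : ℕ) : ℝ) ≤ x ^ 3 * (2 * L) :=
        mul_le_mul_of_nonneg_left h1 (by positivity)
      refine h3.trans ?_
      have h4 : ((3 / 4 : ℝ) * (x ^ 2 * X)) ^ 2 = x ^ 3 * (9 / 16 * (x * X ^ 2)) := by ring
      rw [h4]
      refine mul_le_mul_of_nonneg_left ?_ (by positivity)
      linarith)
  set h : ℝ := -Real.log (rat n k) / 2 with hh
  have hhX : (3 / 8 : ℝ) * X / x ≤ h := by
    have h1 : (3 / 4 : ℝ) * (x ^ 2 * X) / x ^ 3 ≤ (x * (x - 1) / 4 - ((k : ℝ) + 1)) / x ^ 3 :=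
      div_le_div_of_nonneg_right hHn (by positivity)
    have h2 : (3 / 4 : ℝ) * (x ^ 2 * X) / x ^ 3 = 2 * ((3 / 8 : ℝ) * X / x) := by
      field_simp
      ring
    rw [hh]
    linarith
  have hX8 : 0 < (3 / 8 : ℝ) * X / x := by positivity
  have hh0 : 0 < h := lt_of_lt_of_le hX8 hhX
  have hr : rat n k = Real.exp (-(2 * h)) := by
    rw [hh]
    have : -(2 * (-Real.log (rat n k) / 2)) = Real.log (rat n k) := by ring
    rw [this, Real.exp_log hr0]
  -- the width of the boundary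
  set a : ℕ := ⌊x * X / 8⌋₊ with ha
  have ha1 : (a : ℝ) ≤ x * X / 8 := Nat.floor_le (by positivity)
  have ha2 : x * X / 16 ≤ (a : ℝ) := by
    have := Nat.lt_floor_add_one (x * X / 8)
    rw [← ha] at this
    linarith
  have ha3 : 2 * a ≤ n := by
    have : (2 : ℝ) * a ≤ x := by nlinarith
    rw [hx] at this
    exact_mod_cast this
  have ham : ((n - 2 * a : ℕ) : ℝ) = x - 2 * a := by
    rw [Nat.cast_sub ha3]
    push_cast
    rfl
  set m : ℕ := n - 2 * a with hm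
  set y : ℝ := (m : ℝ) with hy
  have hy1 : x * (1 - X / 4) ≤ y := by
    rw [ham]
    nlinarith
  have hyx : y ≤ x := by
    rw [ham]
    have : (0 : ℝ) ≤ a := Nat.cast_nonneg a
    linarith
  have hy0 : 0 < y := lt_of_lt_of_le (by nlinarith) hy1
  have hm0 : 0 < m := by
    have : (0 : ℝ) < (m : ℝ) := hy0
    exact_mod_cast this
  have hysq : x ^ 2 * (1 - X / 2) ≤ y ^ 2 := by
    have h1 : (x * (1 - X / 4)) ^ 2 ≤ y ^ 2 :=
      pow_le_pow_left₀ (mul_nonneg hx0.le (by linarith)) hy1 2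
    refine le_trans ?_ h1
    have h2 : (x * (1 - X / 4)) ^ 2 = x ^ 2 * (1 - X / 2) + x ^ 2 * X ^ 2 / 16 := by ring
    rw [h2]
    have : 0 ≤ x ^ 2 * X ^ 2 / 16 := by positivity
    linarith
  have hHm : (1 / 2 : ℝ) * (x ^ 2 * X) ≤ y * (y - 1) / 4 - ((k : ℝ) + 1) := by nlinarith
  obtain ⟨hrm0, hrm1⟩ := rat_le m k hm0 (y * (y - 1) / 4 - ((k : ℝ) + 1)) rfl (by linarith)
    (by
      have h1 := hlogn m hm0 (by omega)
      have h2 : ((1 / 2 : ℝ) * (x ^ 2 * X)) ^ 2 ≤ (y * (y - 1) / 4 - ((k : ℝ) + 1)) ^ 2 :=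
        pow_le_pow_left₀ (by positivity) hHm 2
      refine le_trans ?_ h2
      have h0 : 0 ≤ Real.log ((m * (m - 1) / 2 + 1 : ℕ) : ℝ) :=
        Real.log_natCast_nonneg _
      have h3 : y ^ 3 * Real.log ((m * (m - 1) / 2 + 1 : ℕ) : ℝ) ≤ x ^ 3 * (2 * L) :=
        mul_le_mul (pow_le_pow_left₀ hy0.le hyx 3) h1 h0 (by positivity)
      refine h3.trans ?_
      have h4 : ((1 / 2 : ℝ) * (x ^ 2 * X)) ^ 2 = x ^ 3 * (1 / 4 * (x * X ^ 2)) := by ring
      rw [h4]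
      refine mul_le_mul_of_nonneg_left ?_ (by positivity)
      linarith)
  have hlm : Real.log (rat m k) ≤ -(X / (2 * x)) := by
    refine hrm1.trans ?_
    have h1 : (1 / 2 : ℝ) * (x ^ 2 * X) / x ^ 3 ≤ (y * (y - 1) / 4 - ((k : ℝ) + 1)) / y ^ 3 := by
      have h2 : (1 / 2 : ℝ) * (x ^ 2 * X) / x ^ 3 ≤ (y * (y - 1) / 4 - ((k : ℝ) + 1)) / x ^ 3 :=
        div_le_div_of_nonneg_right hHm (by positivity)
      refine h2.trans ?_
      exact div_le_div_of_nonneg_left (by linarith) (by positivity) (pow_le_pow_left₀ hy0.le hyx 3)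
    have h3 : (1 / 2 : ℝ) * (x ^ 2 * X) / x ^ 3 = X / (2 * x) := by
      field_simp
    linarith
  have hXx : X / (2 * x) ≤ 1 := by
    rw [div_le_one (by linarith)]
    linarith
  have hXx0 : 0 ≤ X / (2 * x) := by positivity
  have hrmexp : rat m k ≤ Real.exp (-(X / (2 * x))) := by
    rw [← Real.exp_log hrm0]
    exact Real.exp_le_exp.2 hlm
  have hgain : X / (4 * x) ≤ 1 - rat m k := by
    have h1 := one_sub_exp_ge hXx0 hXx
    have h2 : X / (2 * x) / 2 = X / (4 * x) := by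
      field_simp
      ring
    linarith
  have hgain2 : 4 / x ^ 2 ≤ 1 - rat m k := by
    refine le_trans ?_ hgain
    rw [div_le_div_iff₀ (by positivity) (by positivity)]
    nlinarith
  -- the factor `Θ`
  have hY : 3 / 1024 * X ^ 2 ≤ h ^ 2 * (x ^ 2 / 4 - 1) / 6 := by
    have h1 : ((3 / 8 : ℝ) * X / x) ^ 2 ≤ h ^ 2 := pow_le_pow_left₀ hX8.le hhX 2
    have h2 : x ^ 2 / 8 ≤ x ^ 2 / 4 - 1 := by nlinarith
    have h3 : ((3 / 8 : ℝ) * X / x) ^ 2 * (x ^ 2 / 8) ≤ h ^ 2 * (x ^ 2 / 4 - 1) :=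
      mul_le_mul h1 h2 (by positivity) (by positivity)
    have h4 : ((3 / 8 : ℝ) * X / x) ^ 2 * (x ^ 2 / 8) = 6 * (3 / 1024 * X ^ 2) := by
      field_simp
      ring
    linarith
  have hY0 : 0 ≤ 3 / 1024 * X ^ 2 := by positivity
  have hY1 : 3 / 1024 * X ^ 2 ≤ 1 := by nlinarith
  have hΘ : x ^ 8 ≤ (1 + h ^ 2 * (x ^ 2 / 4 - 1) / 6) ^ a := by
    have h1 : Real.exp (3 / 1024 * X ^ 2 / 2) ≤ 1 + h ^ 2 * (x ^ 2 / 4 - 1) / 6 :=
      (exp_half_le hY0 hY1).trans (by linarith)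
    have h2 : Real.exp (3 / 1024 * X ^ 2 / 2) ^ a ≤ (1 + h ^ 2 * (x ^ 2 / 4 - 1) / 6) ^ a :=
      pow_le_pow_left₀ (Real.exp_pos _).le h1 a
    refine le_trans ?_ h2
    rw [← Real.exp_nat_mul]
    have h3 : x ^ 8 = Real.exp (8 * L) := by
      rw [hL, show (8 : ℝ) * Real.log x = ((8 : ℕ) : ℝ) * Real.log x by norm_num, Real.exp_nat_mul,
        Real.exp_log hx0]
    rw [h3]
    refine Real.exp_le_exp.2 ?_
    have h4 : x * X / 16 * (3 / 1024 * X ^ 2 / 2) ≤ (a : ℝ) * (3 / 1024 * X ^ 2 / 2) :=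
      mul_le_mul_of_nonneg_right ha2 (by positivity)
    refine le_trans ?_ h4
    have h5 : x * X / 16 * (3 / 1024 * X ^ 2 / 2) = 3 / 32768 * (x * X ^ 3) := by ring
    rw [h5, hX3]
    nlinarith
  have hposn : 0 < mah n (k + 1) := by
    refine mah_pos n (k + 1) ?_
    have h1 : (4 : ℝ) * ((k : ℝ) + 1) < x * (x - 1) := by linarith
    have h2 : ((n * (n - 1) : ℕ) : ℝ) = x * (x - 1) := by
      rw [Nat.cast_mul, Nat.cast_sub (by omega)]
      simp [hx]
    rw [← h2] at h1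
    have h3 : 4 * (k + 1) < n * (n - 1) := by exact_mod_cast h1
    omega
  have hposm : 0 < mah m (k + 1) := by
    refine mah_pos m (k + 1) ?_
    have h1 : (4 : ℝ) * ((k : ℝ) + 1) < y * (y - 1) := by linarith
    have h2 : ((m * (m - 1) : ℕ) : ℝ) = y * (y - 1) := by
      rw [Nat.cast_mul, Nat.cast_sub hm0]
      simp [hy]
    rw [← h2] at h1
    have h3 : 4 * (k + 1) < m * (m - 1) := by exact_mod_cast h1
    omega
  have hrm : rat m k ≤ 1 := by
    have : 0 ≤ 4 / x ^ 2 := by positivity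
    linarith
  refine step a k hn ha3 hh0 hr hposn hposm hrm ?_ hmono
  have hN : ((n * (n - 1) / 2 + 1 : ℕ) : ℝ) ≤ x ^ 2 := by
    have h1 : n * (n - 1) / 2 + 1 ≤ n ^ 2 := by
      have h3 : n * (n - 1) + n = n ^ 2 := by
        obtain ⟨t, ht⟩ : ∃ t, n = t + 1 := ⟨n - 1, by omega⟩
        rw [ht]
        simp only [Nat.add_sub_cancel]
        ring
      omega
    rw [hx]
    exact_mod_cast h1
  have hk2 : (k : ℝ) + 2 ≤ x ^ 2 := by nlinarith
  have hL1 : x ^ 2 * ((n * (n - 1) / 2 + 1 : ℕ) : ℝ) * ((k : ℝ) + 2) ≤ x ^ 2 * x ^ 2 * x ^ 2 := by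
    refine mul_le_mul (mul_le_mul_of_nonneg_left hN (by positivity)) hk2 (by positivity)
      (by positivity)
  have hR1 : 4 / x ^ 2 * x ^ 8 ≤ (1 - rat m k) * (1 + h ^ 2 * (x ^ 2 / 4 - 1) / 6) ^ a :=
    mul_le_mul hgain2 hΘ (by positivity) (by linarith [hgain2, (by positivity : (0 : ℝ) ≤ 4 / x ^ 2)])
  have hE : 4 / x ^ 2 * x ^ 8 = 4 * (x ^ 2 * x ^ 2 * x ^ 2) := by
    field_simp
  have hpos6 : 0 < x ^ 2 * x ^ 2 * x ^ 2 := by positivity
  linarith

/-- The coefficients increase strictly up to `n ^ 2 (1 / 4 - 45 (log n / n) ^ (1 / 3))`. -/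
theorem lower_asymp (n k : ℕ)
    (hk : (k : ℝ) + 1 ≤ (n : ℝ) ^ 2 * (1 / 4 - 45 * (Real.log n / n) ^ ((1 : ℝ) / 3))) :
    coeffM n k < coeffM n (k + 1) := by
  have hmono : ∀ k : ℕ, (k : ℝ) + 1 ≤ (n : ℝ) ^ 2 * (1 / 4 - 45 * (Real.log n / n) ^ ((1 : ℝ) / 3)) →
      ∀ j ≤ k, coeffM n j ≤ coeffM n k := by
    intro k
    induction k with
    | zero =>
      intro _ j hj
      have : j = 0 := by omega
      rw [this]
    | succ k ih =>
      intro hk j hj
      have hk' : (k : ℝ) + 1 ≤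
          (n : ℝ) ^ 2 * (1 / 4 - 45 * (Real.log n / n) ^ ((1 : ℝ) / 3)) := by
        push_cast at hk
        linarith
      have h1 := ih hk'
      have h2 := step_at rfl hk' h1
      rcases Nat.lt_or_ge k j with h3 | h3
      · have : j = k + 1 := by omega
        rw [this]
      · exact (h1 j h3).trans h2.le
  exact step_at rfl hk (hmono k hk)

end MP8386ec
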