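import Pool.Agent.Lib_MP_8386ec_mi.Window

/-!
Mahonian numbers: generating function, log-concavity, the tilted maximum.
-/

namespace MP8386ec

open Equiv Finset

theorem gf (m : ℕ) (q : ℝ) :
    ∑ σ : Perm (Fin m), q ^ inv σ = ∏ j ∈ range m, ∑ i ∈ range (j + 1), q ^ i := by
  induction m with
  | zero => simp [inv]
  | succ m ih =>
    rw [Finset.prod_range_succ, ← ih, ← Equiv.sum_comp (insEquiv m), Fintype.sum_prod_type,
      Finset.sum_mul]
    apply Finset.sum_congr rfl
    intro σ _
    have h1 : ∀ v : Fin (m + 1), q ^ inv (insEquiv m (σ, v)) = q ^ inv σ * q ^ (m - v.val) := by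
      intro v
      rw [insEquiv_apply, inv_ins, pow_add]
    rw [Finset.sum_congr rfl (fun v _ => h1 v), ← Finset.mul_sum]
    congr 1
    rw [Fin.sum_univ_eq_sum_range (fun v => q ^ (m - v)) (m + 1),
      ← Finset.sum_range_reflect (fun i => q ^ i) (m + 1)]
    apply Finset.sum_congr rfl
    intro i _
    congr 1

open Classical in
/-- Mahonian numbers with an integral index -/
noncomputable def zmah (m : ℕ) (k : ℤ) : ℤ :=
  ∑ σ : Perm (Fin m), if (inv σ : ℤ) = k then 1 else 0

theorem zmah_natCast (m k : ℕ) : zmah m (k : ℤ) = (mah m k : ℤ) := by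
  unfold zmah mah
  rw [Finset.card_filter]
  push_cast
  apply Finset.sum_congr rfl
  intro σ _
  simp only [Nat.cast_inj]

theorem zmah_nonneg (m : ℕ) (k : ℤ) : 0 ≤ zmah m k := by
  unfold zmah
  apply Finset.sum_nonneg
  intro σ _
  split_ifs <;> norm_num

theorem zmah_rec (m : ℕ) (k : ℤ) :
    zmah (m + 1) k = ∑ t ∈ range (m + 1), zmah m (k - (t : ℤ)) := by
  have h1 : zmah (m + 1) k = ∑ v : Fin (m + 1), zmah m (k - ((m - v.val : ℕ) : ℤ)) := by
    unfold zmah
    rw [← Equiv.sum_comp (insEquiv m), Fintype.sum_prod_type_right]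
    apply Finset.sum_congr rfl
    intro v _
    apply Finset.sum_congr rfl
    intro σ _
    rw [insEquiv_apply, inv_ins]
    have : ((inv σ + (m - v.val) : ℕ) : ℤ) = k ↔ (inv σ : ℤ) = k - ((m - v.val : ℕ) : ℤ) := by
      omega
    simp only [this]
  rw [h1, Fin.sum_univ_eq_sum_range (fun v => zmah m (k - ((m - v : ℕ) : ℤ))) (m + 1),
    ← Finset.sum_range_reflect (fun t => zmah m (k - (t : ℤ))) (m + 1)]
  apply Finset.sum_congr rfl
  intro t _
  congr 3

/-- log-concavity -/
def LC (x : ℤ → ℤ) : Prop := ∀ i j : ℤ, i ≤ j → x i * x (j + 1) ≤ x (i + 1) * x j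

theorem LC.shift {x : ℤ → ℤ} (h : LC x) (s : ℕ) :
    ∀ a d : ℤ, a + s ≤ d - s → x a * x d ≤ x (a + s) * x (d - s) := by
  induction s with
  | zero => intro a d _; simp
  | succ s ih =>
    intro a d had
    push_cast at had ⊢
    refine (ih a d (by omega)).trans ?_
    have := h (a + s) (d - s - 1) (by omega)
    rw [show d - s - 1 + 1 = d - (s : ℤ) by ring] at this
    rw [show a + ((s : ℤ) + 1) = a + s + 1 by ring, show d - ((s : ℤ) + 1) = d - s - 1 by ring]
    exact this

theorem LC.gen {x : ℤ → ℤ} (h : LC x) (a b c d : ℤ) (hab : a ≤ b) (hac : a ≤ c)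
    (hs : a + d = b + c) : x a * x d ≤ x b * x c := by
  rcases le_total b c with hbc | hbc
  · obtain ⟨s, hs'⟩ := Int.eq_ofNat_of_zero_le (sub_nonneg.mpr hab)
    have := h.shift s a d (by omega)
    rw [show a + (s : ℤ) = b by omega, show d - (s : ℤ) = c by omega] at this
    exact this
  · obtain ⟨s, hs'⟩ := Int.eq_ofNat_of_zero_le (sub_nonneg.mpr hac)
    have := h.shift s a d (by omega)
    rw [show a + (s : ℤ) = c by omega, show d - (s : ℤ) = b by omega, mul_comm (x c)] at this
    exact this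

/-- convolution with `1 + q + ... + q ^ m` preserves log-concavity -/
theorem LC.conv {x : ℤ → ℤ} (h : LC x) (m : ℕ) (y : ℤ → ℤ)
    (hy : ∀ k, y k = ∑ t ∈ range (m + 1), x (k - (t : ℤ))) : LC y := by
  have hstep : ∀ k, y (k + 1) = y k + x (k + 1) - x (k - m) := by
    intro k
    rw [hy, hy, Finset.sum_range_succ' (fun t => x (k + 1 - (t : ℤ))) m,
      Finset.sum_range_succ (fun t => x (k - (t : ℤ))) m]
    have : ∀ t ∈ range m, x (k + 1 - ((t + 1 : ℕ) : ℤ)) = x (k - (t : ℤ)) := by
      intro t _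
      congr 1
      push_cast
      ring
    rw [Finset.sum_congr rfl this]
    simp only [Nat.cast_zero, sub_zero]
    ring
  intro i j hij
  rw [hstep i, hstep j]
  have h1 : y j * x (i + 1) - y i * x (j + 1) ≥ 0 := by
    rw [hy, hy, Finset.sum_mul, Finset.sum_mul, ← Finset.sum_sub_distrib]
    apply Finset.sum_nonneg
    intro t ht
    rw [Finset.mem_range] at ht
    have := h.gen (i - t) (j - t) (i + 1) (j + 1) (by omega) (by omega) (by ring)
    linarith
  have h2 : y i * x (j - m) - y j * x (i - m) ≥ 0 := by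
    rw [hy, hy, Finset.sum_mul, Finset.sum_mul, ← Finset.sum_sub_distrib]
    apply Finset.sum_nonneg
    intro t ht
    rw [Finset.mem_range] at ht
    have := h.gen (i - m) (i - t) (j - m) (j - t) (by omega) (by omega) (by ring)
    linarith
  nlinarith

theorem zmah_lc (m : ℕ) : LC (zmah m) := by
  induction m with
  | zero =>
    have h0 : ∀ k : ℤ, k ≠ 0 → zmah 0 k = 0 := by
      intro k hk
      unfold zmah
      apply Finset.sum_eq_zero
      intro σ _
      rw [if_neg]
      have : inv σ = 0 := by simp [inv]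
      rw [this]
      intro h
      exact hk (by simpa using h.symm)
    intro i j hij
    have hnn : 0 ≤ zmah 0 (i + 1) * zmah 0 j := mul_nonneg (zmah_nonneg _ _) (zmah_nonneg _ _)
    by_cases hi : i = 0
    · rw [h0 (j + 1) (by omega), mul_zero]
      exact hnn
    · rw [h0 i hi, zero_mul]
      exact hnn
  | succ m ih => exact ih.conv m _ (zmah_rec m)

/-- log-concavity of the Mahonian numbers -/
theorem mah_lc (m i j : ℕ) (h : i ≤ j) :
    mah m i * mah m (j + 1) ≤ mah m (i + 1) * mah m j := by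
  have := zmah_lc m i j (by exact_mod_cast h)
  rw [show (i : ℤ) + 1 = ((i + 1 : ℕ) : ℤ) by push_cast; ring,
    show (j : ℤ) + 1 = ((j + 1 : ℕ) : ℤ) by push_cast; ring] at this
  simp only [zmah_natCast] at this
  exact_mod_cast this

/-- the ratio of two consecutive Mahonian numbers -/
noncomputable def rat (m k : ℕ) : ℝ := (mah m k : ℝ) / (mah m (k + 1) : ℝ)

theorem rat_nonneg (m k : ℕ) : 0 ≤ rat m k := by
  unfold rat
  positivity

/-- below `k` the sequence grows at least by the factor `1 / rat m k` -/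
theorem mah_le_rat (m k : ℕ) (hpos : 0 < mah m (k + 1)) (j : ℕ) (hj : j ≤ k) :
    (mah m j : ℝ) ≤ rat m k * (mah m (j + 1) : ℝ) := by
  have h1 := mah_lc m j k hj
  have h2 : (mah m j : ℝ) * mah m (k + 1) ≤ mah m (j + 1) * mah m k := by exact_mod_cast h1
  have h3 : (0 : ℝ) < mah m (k + 1) := by exact_mod_cast hpos
  unfold rat
  rw [div_mul_eq_mul_div, le_div_iff₀ h3]
  linarith

theorem rat_mul_le (m k : ℕ) (hpos : 0 < mah m (k + 1)) (j : ℕ) (hj : k ≤ j) :
    rat m k * (mah m (j + 1) : ℝ) ≤ (mah m j : ℝ) := by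
  have h1 := mah_lc m k j hj
  have h2 : (mah m k : ℝ) * mah m (j + 1) ≤ mah m (k + 1) * mah m j := by exact_mod_cast h1
  have h3 : (0 : ℝ) < mah m (k + 1) := by exact_mod_cast hpos
  unfold rat
  rw [div_mul_eq_mul_div, div_le_iff₀ h3]
  linarith

/-- the tilted sequence has its maximum at `k + 1` -/
theorem tilt_max (m k : ℕ) (hpos : 0 < mah m (k + 1)) (j : ℕ) :
    (mah m j : ℝ) * rat m k ^ j ≤ mah m (k + 1) * rat m k ^ (k + 1) := by
  have hr := rat_nonneg m k
  rcases le_total j (k + 1) with hj | hj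
  · obtain ⟨s, hs⟩ : ∃ s, j + s = k + 1 := ⟨k + 1 - j, by omega⟩
    clear hj
    induction s generalizing j with
    | zero =>
      rw [add_zero] at hs
      rw [hs]
    | succ s ih =>
      have h1 := ih (j + 1) (by omega)
      have h2 := mah_le_rat m k hpos j (by omega)
      refine le_trans ?_ h1
      rw [pow_succ]
      have h3 : 0 ≤ rat m k ^ j := by positivity
      nlinarith
  · obtain ⟨s, rfl⟩ : ∃ s, j = k + 1 + s := ⟨j - (k + 1), by omega⟩
    clear hj
    induction s with
    | zero => simp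
    | succ s ih =>
      have h2 := rat_mul_le m k hpos (k + 1 + s) (by omega)
      refine le_trans ?_ ih
      rw [← add_assoc, pow_succ]
      have h3 : 0 ≤ rat m k ^ (k + 1 + s) := by positivity
      nlinarith

theorem inv_le {m : ℕ} (σ : Perm (Fin m)) : 2 * inv σ ≤ m * (m - 1) := by
  have := inv_add_inv_rev σ
  omega

/-- the generating function as a polynomial -/
theorem gf_eq (m : ℕ) (q : ℝ) :
    ∑ σ : Perm (Fin m), q ^ inv σ = ∑ j ∈ range (m * (m - 1) / 2 + 1), (mah m j : ℝ) * q ^ j := by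
  classical
  rw [← Finset.sum_fiberwise_of_maps_to (g := fun σ : Perm (Fin m) => inv σ)
    (t := range (m * (m - 1) / 2 + 1))]
  · apply Finset.sum_congr rfl
    intro j _
    rw [Finset.sum_congr rfl (g := fun _ => q ^ j)]
    · rw [Finset.sum_const, nsmul_eq_mul]
      congr 1
    · intro σ hσ
      rw [Finset.mem_filter] at hσ
      rw [hσ.2]
  · intro σ _
    rw [Finset.mem_range]
    have := inv_le σ
    omega

/-- the value at the saddle point -/
theorem gf_le (m k : ℕ) (hpos : 0 < mah m (k + 1)) :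
    ∑ σ : Perm (Fin m), rat m k ^ inv σ ≤
      ((m * (m - 1) / 2 + 1 : ℕ) : ℝ) * (mah m (k + 1) * rat m k ^ (k + 1)) := by
  rw [gf_eq]
  refine (Finset.sum_le_sum fun j _ => tilt_max m k hpos j).trans ?_
  rw [Finset.sum_const, Finset.card_range, nsmul_eq_mul]

theorem mah_pos (m k : ℕ) (hk : 2 * k ≤ m * (m - 1)) : 0 < mah m k := by
  -- downward from the top rank, by the symmetry and monotonicity
  have h0 : 0 < mah m 0 := by
    unfold mah
    rw [Finset.card_pos]
    refine ⟨1, ?_⟩
    simp only [Finset.mem_filter, Finset.mem_univ, true_and]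
    unfold inv
    rw [Finset.card_eq_zero, Finset.filter_eq_empty_iff]
    rintro ⟨p, q⟩ _
    simp only [Perm.coe_one, id_eq, not_and, not_lt]
    exact fun h => h.le
  have hlow : ∀ j, 4 * j ≤ m * (m - 1) + 3 → 0 < mah m j := by
    intro j
    induction j with
    | zero => intro _; exact h0
    | succ j ih =>
      intro hj
      exact lt_of_lt_of_le (ih (by omega)) (mah_mono m j (by omega))
  obtain ⟨N, hN⟩ := two_dvd_mul_pred m
  by_cases hc : 4 * k ≤ m * (m - 1)
  · exact hlow k (by omega)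
  · rw [mah_symm m k (N - k) (by omega)]
    exact hlow (N - k) (by omega)

end MP8386ec
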