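import Pool.Agent.Lib_MP_8386ec_mi.Tilt

/-!
The lower part up to `n ^ 2 / 4 - o(n ^ 2)`: the inductive step.
-/

namespace MP8386ec

open Equiv Finset

open Classical in
/-- every coset has at most `n` elements, its good element has the least number of inversions -/
theorem mah_le_good {n : ℕ} (hn : 0 < n) (k : ℕ) :
    mah n k ≤ n * ∑ j ∈ range (k + 1), coeffM n j := by
  obtain ⟨m, rfl⟩ : ∃ m, n = m + 1 := ⟨n - 1, by omega⟩
  set T : Finset (Perm (Fin (m + 1))) := univ.filter (fun σ => Good σ ∧ inv σ ≤ k) with hT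
  have h1 : mah (m + 1) k ≤ (m + 1) * T.card := by
    have h2 : (univ.filter (fun π : Perm (Fin (m + 1)) => inv π = k)) ⊆
        ((range (m + 1)) ×ˢ T).image (fun x => x.2 * finRotate (m + 1) ^ x.1) := by
      intro π hπ
      rw [Finset.mem_filter] at hπ
      obtain ⟨σ, hσ, he⟩ := good_exists π
      obtain ⟨i, hi, hπσ⟩ := (mk_eq_iff σ π).mp he
      rw [Finset.mem_image]
      refine ⟨(i, σ), ?_, hπσ.symm⟩
      rw [Finset.mem_product, Finset.mem_range, hT, Finset.mem_filter]
      refine ⟨hi, Finset.mem_univ _, hσ, ?_⟩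
      have h3 := minv_good σ hσ
      have h4 : minv (QuotientGroup.mk σ : Perm (Fin (m + 1)) ⧸ Zn (m + 1)) ≤ inv π :=
        Nat.sInf_le ⟨π, he.symm, rfl⟩
      rw [h3, hπ.2] at h4
      exact h4
    have h3 := (Finset.card_le_card h2).trans Finset.card_image_le
    rw [Finset.card_product, Finset.card_range] at h3
    unfold mah
    convert h3
  refine h1.trans (Nat.mul_le_mul_left _ ?_)
  have h2 : T.card = ∑ j ∈ range (k + 1),
      (univ.filter (fun π : Perm (Fin (m + 1)) => Good π ∧ inv π = j)).card := by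
    rw [Finset.card_eq_sum_card_fiberwise (f := fun σ => inv σ) (t := range (k + 1))]
    · apply Finset.sum_congr rfl
      intro j hj
      rw [Finset.mem_range] at hj
      congr 1
      ext σ
      simp only [hT, Finset.mem_filter, Finset.mem_univ, true_and]
      constructor
      · rintro ⟨⟨h3, _⟩, h5⟩
        exact ⟨h3, h5⟩
      · rintro ⟨h3, h5⟩
        exact ⟨⟨h3, by omega⟩, h5⟩
    · intro σ hσ
      have h4 : σ ∈ T := hσ
      rw [hT, Finset.mem_filter] at h4
      rw [Finset.coe_range, Set.mem_Iio]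
      exact Nat.lt_succ_of_le h4.2.2
  rw [h2]
  apply Finset.sum_le_sum
  intro j _
  rw [coeffM_eq (by omega)]

/-- the conditions at the cuts near the ends only -/
def GoodE {n : ℕ} (a : ℕ) (π : Perm (Fin n)) : Prop :=
  ∀ i, 0 < i → i < n → (i ≤ a ∨ n - a ≤ i) → Cond π i

theorem goodE_ext {n : ℕ} (a m : ℕ) (h : a + m ≤ n) (hm : a + m = n - a) (π : Perm (Fin n))
    (σ : Perm (Fin m)) (hG : GoodE a π) : GoodE a (π * ext a m h σ) := by
  intro i h0 hi hia
  exact cond_ext a m h σ π i (by omega) (hG i h0 hi hia)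

open Classical in
theorem goodE_rat {n : ℕ} (a k : ℕ) (ha : 2 * a ≤ n) (hpos : 0 < mah (n - 2 * a) (k + 1)) :
    ((univ.filter (fun π : Perm (Fin n) => GoodE a π ∧ inv π = k)).card : ℝ) ≤
      rat (n - 2 * a) k *
        ((univ.filter (fun π : Perm (Fin n) => GoodE a π ∧ inv π = k + 1)).card : ℝ) := by
  set m := n - 2 * a with hm
  have hG : ∀ (π : Perm (Fin n)) (σ : Perm (Fin m)), GoodE a π →
      GoodE a (π * ext a m (by omega) σ) := fun π σ =>
    goodE_ext a m (by omega) (by omega) π σ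
  have h1 := window_double a m (by omega) (GoodE a) hG k
  have h2 := window_double a m (by omega) (GoodE a) hG (k + 1)
  have hf : (0 : ℝ) < m.factorial := by exact_mod_cast Nat.factorial_pos m
  have h3 : (m.factorial : ℝ) *
      ((univ.filter (fun π : Perm (Fin n) => GoodE a π ∧ inv π = k)).card : ℝ) ≤
      (m.factorial : ℝ) * (rat m k *
        ((univ.filter (fun π : Perm (Fin n) => GoodE a π ∧ inv π = k + 1)).card : ℝ)) := by
    have e1 : (m.factorial : ℝ) *
        ((univ.filter (fun π : Perm (Fin n) => GoodE a π ∧ inv π = k)).card : ℝ) =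
        ∑ π ∈ univ.filter (fun π : Perm (Fin n) => GoodE a π),
          ((if outer a (a + m) π ≤ k then mah m (k - outer a (a + m) π) else 0 : ℕ) : ℝ) := by
      exact_mod_cast h1
    have e2 : (m.factorial : ℝ) *
        ((univ.filter (fun π : Perm (Fin n) => GoodE a π ∧ inv π = k + 1)).card : ℝ) =
        ∑ π ∈ univ.filter (fun π : Perm (Fin n) => GoodE a π),
          ((if outer a (a + m) π ≤ k + 1 then mah m (k + 1 - outer a (a + m) π) else 0 : ℕ) :
            ℝ) := by
      exact_mod_cast h2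
    rw [mul_left_comm, e1, e2, Finset.mul_sum]
    apply Finset.sum_le_sum
    intro π _
    have hr := rat_nonneg m k
    split_ifs with h5 h6
    · have h7 := mah_le_rat m k hpos (k - outer a (a + m) π) (by omega)
      rw [show k + 1 - outer a (a + m) π = k - outer a (a + m) π + 1 by omega]
      exact h7
    · omega
    · push_cast
      positivity
    · simp
  exact le_of_mul_le_mul_left h3 hf

open Classical in
theorem goodE_le {n : ℕ} (a k : ℕ) (F : ℝ)
    (hF : ∀ i, a < i → i < n - a →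
      ((univ.filter (fun π : Perm (Fin n) => inv π = k + 1 ∧ i * (n - i) ≤ 2 * cut i π)).card : ℝ)
        ≤ F) (hF0 : 0 ≤ F) :
    ((univ.filter (fun π : Perm (Fin n) => GoodE a π ∧ inv π = k + 1)).card : ℝ) ≤
      ((univ.filter (fun π : Perm (Fin n) => Good π ∧ inv π = k + 1)).card : ℝ) + n * F := by
  set I : Finset ℕ := (range n).filter (fun i => a < i ∧ i < n - a) with hI
  have h1 : (univ.filter (fun π : Perm (Fin n) => GoodE a π ∧ inv π = k + 1)) ⊆
      (univ.filter (fun π : Perm (Fin n) => Good π ∧ inv π = k + 1)) ∪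
      I.biUnion (fun i =>
        univ.filter (fun π : Perm (Fin n) => inv π = k + 1 ∧ i * (n - i) ≤ 2 * cut i π)) := by
    intro π hπ
    rw [Finset.mem_filter] at hπ
    rw [Finset.mem_union, Finset.mem_biUnion]
    by_cases hG : Good π
    · left
      rw [Finset.mem_filter]
      exact ⟨Finset.mem_univ _, hG, hπ.2.2⟩
    · right
      unfold Good at hG
      push Not at hG
      obtain ⟨i, h0, hi, hC⟩ := hG
      have hia : ¬ (i ≤ a ∨ n - a ≤ i) := fun hh => hC (hπ.2.1 i h0 hi hh)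
      push Not at hia
      refine ⟨i, ?_, ?_⟩
      · rw [hI, Finset.mem_filter, Finset.mem_range]
        exact ⟨hi, hia.1, hia.2⟩
      · rw [Finset.mem_filter]
        refine ⟨Finset.mem_univ _, hπ.2.2, ?_⟩
        have h2 : ¬ (2 * S π i < i * (n - 1)) := fun hh => hC (Or.inl hh)
        have h3 := S_eq_cut π i hi.le
        have h4 : i * (n - i) + i * (i - 1) = i * (n - 1) := by
          rw [← Nat.mul_add]
          congr 1
          omega
        omega
  have h2 := (Finset.card_le_card h1).trans (Finset.card_union_le _ _)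
  have h3 : ((I.biUnion (fun i => univ.filter
      (fun π : Perm (Fin n) => inv π = k + 1 ∧ i * (n - i) ≤ 2 * cut i π))).card : ℝ) ≤ n * F := by
    have h4 : ((I.biUnion (fun i => univ.filter
        (fun π : Perm (Fin n) => inv π = k + 1 ∧ i * (n - i) ≤ 2 * cut i π))).card : ℝ) ≤
        ∑ i ∈ I, ((univ.filter
          (fun π : Perm (Fin n) => inv π = k + 1 ∧ i * (n - i) ≤ 2 * cut i π)).card : ℝ) := by
      exact_mod_cast Finset.card_biUnion_le
    refine h4.trans ((Finset.sum_le_sum (g := fun _ => F) (fun i hi => ?_)).trans ?_)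
    · rw [hI, Finset.mem_filter] at hi
      exact hF i hi.2.1 hi.2.2
    · rw [Finset.sum_const, nsmul_eq_mul]
      apply mul_le_mul_of_nonneg_right _ hF0
      have : I.card ≤ n := by
        rw [hI]
        refine (Finset.card_filter_le _ _).trans ?_
        rw [Finset.card_range]
      exact_mod_cast this
  have h5 : ((univ.filter (fun π : Perm (Fin n) => GoodE a π ∧ inv π = k + 1)).card : ℝ) ≤
      ((univ.filter (fun π : Perm (Fin n) => Good π ∧ inv π = k + 1)).card : ℝ) +
      ((I.biUnion (fun i => univ.filter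
        (fun π : Perm (Fin n) => inv π = k + 1 ∧ i * (n - i) ≤ 2 * cut i π))).card : ℝ) := by
    exact_mod_cast h2
  linarith

/-- the factor for the cuts at distance at least `a` from the ends -/
theorem cut_factor {n : ℕ} (a k i : ℕ) {h : ℝ} (hh : 0 < h) (hr : rat n k = Real.exp (-(2 * h)))
    (hpos : 0 < mah n (k + 1)) (hn : 2 ≤ n) (ha : a < i) (hi : i < n - a) :
    ((univ.filter (fun π : Perm (Fin n) => inv π = k + 1 ∧ i * (n - i) ≤ 2 * cut i π)).card : ℝ) *
      (1 + h ^ 2 * ((n : ℝ) ^ 2 / 4 - 1) / 6) ^ a ≤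
      ((n * (n - 1) / 2 + 1 : ℕ) : ℝ) * mah n (k + 1) := by
  classical
  set s := n - i with hs
  have hns : i + s = n := by omega
  have hnR : (2 : ℝ) ≤ n := by exact_mod_cast hn
  set θ : ℝ := 1 + h ^ 2 * ((n : ℝ) ^ 2 / 4 - 1) / 6 with hθ
  have hθ1 : 1 ≤ θ := by
    rw [hθ]
    have h1 : (0 : ℝ) ≤ (n : ℝ) ^ 2 / 4 - 1 := by nlinarith
    have : 0 ≤ h ^ 2 * ((n : ℝ) ^ 2 / 4 - 1) / 6 := by positivity
    linarith
  have hU : ∀ x : ℕ, 0 < x → n ≤ 2 * x → θ ≤ U h x / x := by
    intro x hx0 hx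
    have hxR : (0 : ℝ) < x := by exact_mod_cast hx0
    rw [le_div_iff₀ hxR]
    have h1 := U_ge h x
    have h2 : (n : ℝ) ≤ 2 * x := by exact_mod_cast hx
    have h3 : (n : ℝ) ^ 2 / 4 - 1 ≤ (x : ℝ) ^ 2 - 1 := by nlinarith
    have h4 : θ ≤ 1 + h ^ 2 * ((x : ℝ) ^ 2 - 1) / 6 := by
      rw [hθ]
      have := mul_le_mul_of_nonneg_left h3 (sq_nonneg h)
      linarith
    calc θ * x = x * θ := mul_comm _ _
      _ ≤ x * (1 + h ^ 2 * ((x : ℝ) ^ 2 - 1) / 6) := mul_le_mul_of_nonneg_left h4 hxR.le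
      _ ≤ U h x := h1
  have hθa : 0 ≤ θ ^ a := by positivity
  have hprod0 : ∀ x, 0 ≤ ∏ j ∈ range x, u h j := fun x => Finset.prod_nonneg fun j _ => u_nonneg h j
  apply cut_bound i s k hns hh hr hpos (θ ^ a) hθa
  by_cases hc : i ≤ s
  · have h1 := prod_u_split hh s i (by omega)
    rw [show s + i = n by omega] at h1
    refine le_trans ?_ h1
    rw [mul_comm (∏ j ∈ range i, u h j)]
    apply mul_le_mul_of_nonneg_left _ (mul_nonneg (hprod0 s) (hprod0 i))
    calc θ ^ a ≤ θ ^ i := pow_le_pow_right₀ hθ1 ha.le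
      _ ≤ (U h s / s) ^ i := pow_le_pow_left₀ (by linarith) (hU s (by omega) (by omega)) i
  · have h1 := prod_u_split hh i s (by omega)
    rw [hns] at h1
    refine le_trans ?_ h1
    apply mul_le_mul_of_nonneg_left _ (mul_nonneg (hprod0 i) (hprod0 s))
    calc θ ^ a ≤ θ ^ s := pow_le_pow_right₀ hθ1 (by omega)
      _ ≤ (U h i / i) ^ s := pow_le_pow_left₀ (by linarith) (hU i (by omega) (by omega)) s

/-- the inductive step -/
theorem step {n : ℕ} (a k : ℕ) (hn : 2 ≤ n) (ha : 2 * a ≤ n) {h : ℝ} (hh : 0 < h)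
    (hr : rat n k = Real.exp (-(2 * h))) (hposn : 0 < mah n (k + 1))
    (hposm : 0 < mah (n - 2 * a) (k + 1)) (hrm : rat (n - 2 * a) k ≤ 1)
    (hbig : (n : ℝ) ^ 2 * ((n * (n - 1) / 2 + 1 : ℕ) : ℝ) * ((k : ℝ) + 2) <
      (1 - rat (n - 2 * a) k) * (1 + h ^ 2 * ((n : ℝ) ^ 2 / 4 - 1) / 6) ^ a)
    (hmono : ∀ j ≤ k, coeffM n j ≤ coeffM n k) : coeffM n k < coeffM n (k + 1) := by
  classical
  by_contra hcon
  push Not at hcon
  set A : ℝ := (coeffM n k : ℝ) with hA
  set r := rat (n - 2 * a) k with hr'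
  set Θ : ℝ := (1 + h ^ 2 * ((n : ℝ) ^ 2 / 4 - 1) / 6) ^ a with hΘ
  set N1 : ℝ := ((n * (n - 1) / 2 + 1 : ℕ) : ℝ) with hN1
  have hnR : (2 : ℝ) ≤ n := by exact_mod_cast hn
  have hr0 : 0 ≤ r := rat_nonneg _ _
  have hΘ1 : 1 ≤ Θ := by
    rw [hΘ]
    apply one_le_pow₀
    have h1 : (0 : ℝ) ≤ (n : ℝ) ^ 2 / 4 - 1 := by nlinarith
    have : 0 ≤ h ^ 2 * ((n : ℝ) ^ 2 / 4 - 1) / 6 := by positivity
    linarith
  have hΘ0 : 0 < Θ := by linarith
  have hN1pos : 0 < N1 := by
    rw [hN1]
    positivity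
  -- lower bound for `A`
  have h1 : (mah n (k + 1) : ℝ) ≤ n * (((k : ℝ) + 2) * A) := by
    have h2 := mah_le_good (by omega : 0 < n) (k + 1)
    have h3 : ∑ j ∈ range (k + 1 + 1), coeffM n j ≤ (k + 2) * coeffM n k := by
      refine (Finset.sum_le_sum (g := fun _ => coeffM n k) (fun j hj => ?_)).trans ?_
      · rw [Finset.mem_range] at hj
        rcases Nat.lt_or_ge j (k + 1) with h | h
        · exact hmono j (by omega)
        · rw [show j = k + 1 by omega]
          exact hcon
      · rw [Finset.sum_const, Finset.card_range, smul_eq_mul]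
    have h4 := h2.trans (Nat.mul_le_mul_left n h3)
    have h5 : (mah n (k + 1) : ℝ) ≤ ((n * ((k + 2) * coeffM n k) : ℕ) : ℝ) := by exact_mod_cast h4
    refine h5.trans (le_of_eq ?_)
    push_cast
    rw [hA]
  have hmpos : (0 : ℝ) < mah n (k + 1) := by exact_mod_cast hposn
  have hApos : 0 < A := by
    by_contra hA0
    push Not at hA0
    have : (n : ℝ) * (((k : ℝ) + 2) * A) ≤ 0 := by
      have h2 : ((k : ℝ) + 2) * A ≤ 0 := mul_nonpos_of_nonneg_of_nonpos (by positivity) hA0
      exact mul_nonpos_of_nonneg_of_nonpos (by positivity) h2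
    linarith
  -- the error term
  set F : ℝ := N1 * mah n (k + 1) / Θ with hF
  have hF0 : 0 ≤ F := by positivity
  have h2 := goodE_le (n := n) a k F (fun i hi hi' => by
    rw [hF, le_div_iff₀ hΘ0]
    exact cut_factor a k i hh hr hposn hn hi hi') hF0
  have h3 := goodE_rat (n := n) a k ha hposm
  have h4 : A ≤ ((univ.filter (fun π : Perm (Fin n) => GoodE a π ∧ inv π = k)).card : ℝ) := by
    rw [hA, coeffM_eq (by omega)]
    have : (univ.filter (fun π : Perm (Fin n) => Good π ∧ inv π = k)).card ≤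
        (univ.filter (fun π : Perm (Fin n) => GoodE a π ∧ inv π = k)).card := by
      apply Finset.card_le_card
      intro π hπ
      rw [Finset.mem_filter] at hπ ⊢
      exact ⟨hπ.1, fun i h0 hi _ => hπ.2.1 i h0 hi, hπ.2.2⟩
    exact_mod_cast this
  have h5 : ((univ.filter (fun π : Perm (Fin n) => Good π ∧ inv π = k + 1)).card : ℝ) ≤ A := by
    have h6 := coeffM_eq (by omega : 0 < n) (k + 1)
    rw [h6] at hcon
    rw [hA]
    exact_mod_cast hcon
  have h6 : A ≤ r * (A + n * F) :=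
    h4.trans (h3.trans (mul_le_mul_of_nonneg_left (h2.trans (by linarith)) hr0))
  have hnF0 : 0 ≤ n * F := by positivity
  have h7 : (1 - r) * A ≤ n * F := by
    have : r * (n * F) ≤ 1 * (n * F) := mul_le_mul_of_nonneg_right hrm hnF0
    nlinarith
  have h8 : (n : ℝ) * F * Θ ≤ (n : ℝ) ^ 2 * N1 * ((k : ℝ) + 2) * A := by
    have e1 : (n : ℝ) * F * Θ = n * (N1 * mah n (k + 1)) := by
      rw [hF]
      field_simp
    rw [e1]
    calc (n : ℝ) * (N1 * mah n (k + 1)) ≤ n * (N1 * (n * (((k : ℝ) + 2) * A))) := by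
          apply mul_le_mul_of_nonneg_left _ (by positivity)
          exact mul_le_mul_of_nonneg_left h1 hN1pos.le
      _ = (n : ℝ) ^ 2 * N1 * ((k : ℝ) + 2) * A := by ring
  have h9 : (1 - r) * Θ * A ≤ (n : ℝ) ^ 2 * N1 * ((k : ℝ) + 2) * A := by
    calc (1 - r) * Θ * A = (1 - r) * A * Θ := by ring
      _ ≤ n * F * Θ := mul_le_mul_of_nonneg_right h7 hΘ0.le
      _ ≤ _ := h8
  have h10 := le_of_mul_le_mul_right h9 hApos
  linarith

end MP8386ec
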