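import Pool.Agent.Lib_MP_8386ec_mi.Maho
import Pool.Agent.Lib_MP_8386ec_mi.Hyp
import Pool.Agent.Lib_MP_8386ec_mi.Lower1

/-!
The ratio of consecutive Mahonian numbers below the middle, and the number of permutations with
`k + 1` inversions and many inversions across a cut.
-/

namespace MP8386ec

open Equiv Finset

theorem gf_exp (m : ℕ) (h : ℝ) :
    ∑ σ : Perm (Fin m), Real.exp (-(2 * h)) ^ inv σ =
      Real.exp (-(h * ((m : ℝ) * ((m : ℝ) - 1) / 2))) * (m.factorial : ℝ) *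
        ∏ j ∈ range m, u h j := by
  rw [gf, prod_geom]

theorem mah_le_mid (n j : ℕ) : mah n j ≤ mah n (n * (n - 1) / 4) := by
  set K := n * (n - 1) / 4 with hK
  rcases le_total j K with hj | hj
  · obtain ⟨s, hs⟩ : ∃ s, j + s = K := ⟨K - j, by omega⟩
    clear hj
    induction s generalizing j with
    | zero =>
      rw [add_zero] at hs
      rw [hs]
    | succ s ih =>
      refine (mah_mono n j ?_).trans (ih (j + 1) (by omega))
      have : 4 * K ≤ n * (n - 1) := by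
        rw [hK]
        exact Nat.mul_div_le _ _
      omega
  · obtain ⟨s, rfl⟩ : ∃ s, j = K + s := ⟨j - K, by omega⟩
    clear hj
    induction s with
    | zero => simp
    | succ s ih =>
      refine le_trans ?_ ih
      have h1 : n * (n - 1) < 4 * (K + 1) := by
        rw [hK]
        omega
      have h2 : n * (n - 1) < 4 * ((K + s) + 1) := by omega
      exact mah_desc n (K + s) h2

theorem factorial_le_mid (n : ℕ) :
    (n.factorial : ℝ) ≤ ((n * (n - 1) / 2 + 1 : ℕ) : ℝ) * mah n (n * (n - 1) / 4) := by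
  have h1 := gf_eq n 1
  simp only [one_pow, mul_one, Finset.sum_const, Finset.card_univ, Fintype.card_perm,
    Fintype.card_fin, nsmul_eq_mul] at h1
  rw [h1]
  refine (Finset.sum_le_sum (g := fun _ => (mah n (n * (n - 1) / 4) : ℝ)) (fun j _ => ?_)).trans ?_
  · exact_mod_cast mah_le_mid n j
  · rw [Finset.sum_const, Finset.card_range, nsmul_eq_mul]

/-- the ratio of consecutive Mahonian numbers below the middle -/
theorem rat_le (n k : ℕ) (hn : 0 < n) (H : ℝ) (hH : H = (n : ℝ) * ((n : ℝ) - 1) / 4 - ((k : ℝ) + 1))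
    (hpos : 0 < H)
    (hlog : (n : ℝ) ^ 3 * Real.log ((n * (n - 1) / 2 + 1 : ℕ) : ℝ) ≤ H ^ 2) :
    0 < rat n k ∧ Real.log (rat n k) ≤ -(H / (n : ℝ) ^ 3) := by
  have hnR : (1 : ℝ) ≤ n := by exact_mod_cast hn
  have hcast : ((n * (n - 1) : ℕ) : ℝ) = (n : ℝ) * ((n : ℝ) - 1) := by
    rw [Nat.cast_mul, Nat.cast_sub hn]
    simp
  have hk4 : 4 * (k + 1) < n * (n - 1) := by
    have : (4 : ℝ) * ((k : ℝ) + 1) < (n : ℝ) * ((n : ℝ) - 1) := by linarith
    rw [← hcast] at this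
    exact_mod_cast this
  have hm1 : 0 < mah n (k + 1) := mah_pos n (k + 1) (by omega)
  have hm0 : 0 < mah n k := mah_pos n k (by omega)
  have hm1R : (0 : ℝ) < mah n (k + 1) := by exact_mod_cast hm1
  have hm0R : (0 : ℝ) < mah n k := by exact_mod_cast hm0
  have hr0 : 0 < rat n k := by
    unfold rat
    positivity
  have hr1 : rat n k ≤ 1 := by
    unfold rat
    rw [div_le_one hm1R]
    exact_mod_cast mah_mono n k (by omega)
  refine ⟨hr0, ?_⟩
  set K := n * (n - 1) / 4 with hK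
  obtain ⟨D, hD⟩ : ∃ D, K = (k + 1) + D := ⟨K - (k + 1), by omega⟩
  set r := rat n k with hr
  set t : ℝ := 2 * H / (n : ℝ) ^ 3 with ht
  have hn3 : (0 : ℝ) < (n : ℝ) ^ 3 := by positivity
  have ht0 : 0 < t := by positivity
  have hfac : (0 : ℝ) < n.factorial := by exact_mod_cast Nat.factorial_pos n
  -- upper bound for `mah n (k+1)`
  have h1 : (mah n (k + 1) : ℝ) * Real.exp (-(2 * t)) ^ (k + 1) ≤
      ∑ σ : Perm (Fin n), Real.exp (-(2 * t)) ^ inv σ := by
    rw [gf_eq]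
    refine Finset.single_le_sum (f := fun j => (mah n j : ℝ) * Real.exp (-(2 * t)) ^ j)
      (fun j _ => by positivity) ?_
    rw [Finset.mem_range]
    omega
  rw [gf_exp] at h1
  have h2 := prod_u_le t n
  have h3 : (mah n (k + 1) : ℝ) * Real.exp (-(2 * t)) ^ (k + 1) ≤
      Real.exp (-(t * ((n : ℝ) * ((n : ℝ) - 1) / 2))) * (n.factorial : ℝ) *
        Real.exp (t ^ 2 * (n : ℝ) ^ 3 / 2) :=
    h1.trans (mul_le_mul_of_nonneg_left h2 (by positivity))
  have h4 : (mah n (k + 1) : ℝ) ≤ n.factorial * Real.exp (-(2 * H ^ 2 / (n : ℝ) ^ 3)) := by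
    have e1 : Real.exp (-(2 * t)) ^ (k + 1) = Real.exp (-(2 * t * ((k : ℝ) + 1))) := by
      rw [← Real.exp_nat_mul]
      congr 1
      push_cast
      ring
    rw [e1] at h3
    have e2 : Real.exp (-(t * ((n : ℝ) * ((n : ℝ) - 1) / 2))) * (n.factorial : ℝ) *
        Real.exp (t ^ 2 * (n : ℝ) ^ 3 / 2) =
        (n.factorial * Real.exp (-(2 * H ^ 2 / (n : ℝ) ^ 3))) *
          Real.exp (-(2 * t * ((k : ℝ) + 1))) := by
      rw [mul_comm (Real.exp _) (n.factorial : ℝ), mul_assoc, mul_assoc, ← Real.exp_add,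
        ← Real.exp_add]
      congr 2
      have e3 : (n : ℝ) * ((n : ℝ) - 1) = 4 * H + 4 * ((k : ℝ) + 1) := by linarith
      rw [e3, ht]
      field_simp
      ring
    rw [e2] at h3
    exact le_of_mul_le_mul_right h3 (Real.exp_pos _)
  -- comparison with the middle
  have h5 := tilt_max n k hm1 K
  rw [← hr, hD, pow_add] at h5
  have h6 := factorial_le_mid n
  rw [← hK, hD] at h6
  have hrk : 0 < r ^ (k + 1) := by positivity
  have h7 : (mah n (k + 1 + D) : ℝ) * r ^ D ≤ mah n (k + 1) := by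
    have : (mah n (k + 1 + D) : ℝ) * r ^ D * r ^ (k + 1) ≤ mah n (k + 1) * r ^ (k + 1) := by
      calc _ = (mah n (k + 1 + D) : ℝ) * (r ^ (k + 1) * r ^ D) := by ring
        _ ≤ _ := h5
    exact le_of_mul_le_mul_right this hrk
  set N1 : ℝ := ((n * (n - 1) / 2 + 1 : ℕ) : ℝ) with hN1
  have hN1pos : 0 < N1 := by
    rw [hN1]
    positivity
  have h8 : (n.factorial : ℝ) * r ^ D ≤
      (n.factorial : ℝ) * (N1 * Real.exp (-(2 * H ^ 2 / (n : ℝ) ^ 3))) := by
    calc (n.factorial : ℝ) * r ^ D ≤ (N1 * mah n (k + 1 + D)) * r ^ D :=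
          mul_le_mul_of_nonneg_right h6 (by positivity)
      _ = N1 * (mah n (k + 1 + D) * r ^ D) := by ring
      _ ≤ N1 * mah n (k + 1) := mul_le_mul_of_nonneg_left h7 hN1pos.le
      _ ≤ N1 * (n.factorial * Real.exp (-(2 * H ^ 2 / (n : ℝ) ^ 3))) :=
          mul_le_mul_of_nonneg_left h4 hN1pos.le
      _ = _ := by ring
  have h9 : r ^ D ≤ N1 * Real.exp (-(2 * H ^ 2 / (n : ℝ) ^ 3)) := le_of_mul_le_mul_left h8 hfac
  have h10 : (D : ℝ) * Real.log r ≤ Real.log N1 - 2 * H ^ 2 / (n : ℝ) ^ 3 := by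
    have := Real.log_le_log (by positivity : 0 < r ^ D) h9
    rw [Real.log_pow, Real.log_mul hN1pos.ne' (Real.exp_pos _).ne', Real.log_exp] at this
    linarith
  have h11 : Real.log N1 ≤ H ^ 2 / (n : ℝ) ^ 3 := by
    rw [le_div_iff₀ hn3]
    linarith
  have h12 : (D : ℝ) ≤ H := by
    have h13 : 4 * (k + 1 + D) ≤ n * (n - 1) := by
      rw [← hD, hK]
      exact Nat.mul_div_le _ _
    have h14 : (4 : ℝ) * ((k : ℝ) + 1 + D) ≤ (n : ℝ) * ((n : ℝ) - 1) := by
      rw [← hcast]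
      exact_mod_cast h13
    linarith
  have h13 : Real.log r ≤ 0 := Real.log_nonpos hr0.le hr1
  have h14 : H * Real.log r ≤ D * Real.log r := mul_le_mul_of_nonpos_right h12 h13
  have h15 : H * Real.log r ≤ H * (-(H / (n : ℝ) ^ 3)) := by
    have e : H * (-(H / (n : ℝ) ^ 3)) = H ^ 2 / (n : ℝ) ^ 3 - 2 * H ^ 2 / (n : ℝ) ^ 3 := by
      field_simp
      ring
    rw [e]
    linarith
  exact le_of_mul_le_mul_left h15 hpos

/-! ### Permutations with many inversions across a cut -/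

/-- number of inversions in a set of pairs of positions -/
def cntP {n : ℕ} (D : Fin n → Fin n → Prop) [∀ p q, Decidable (D p q)] (π : Perm (Fin n)) : ℕ :=
  (univ.filter (fun p : Fin n × Fin n => D p.1 p.2 ∧ π p.2 < π p.1)).card

theorem cntP_ext {n : ℕ} (a m : ℕ) (h : a + m ≤ n) (σ : Perm (Fin m)) (π : Perm (Fin n))
    (D : Fin n → Fin n → Prop) [∀ p q, Decidable (D p q)]
    (hD : ∀ p q, D p q ↔ D (ext a m h σ p) (ext a m h σ q)) :
    cntP D (π * ext a m h σ) = cntP D π := by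
  unfold cntP
  apply Finset.card_equiv ((ext a m h σ).prodCongr (ext a m h σ))
  rintro ⟨p, q⟩
  simp only [Finset.mem_filter, Finset.mem_univ, true_and, Equiv.prodCongr_apply, Prod.map_apply,
    Perm.mul_apply]
  rw [hD p q]

/-- inversions on the left of the cut -/
def Lc {n : ℕ} (i : ℕ) (π : Perm (Fin n)) : ℕ :=
  cntP (fun p q : Fin n => p < q ∧ q.val < i) π

/-- inversions on the right of the cut -/
def Rc {n : ℕ} (i : ℕ) (π : Perm (Fin n)) : ℕ :=
  cntP (fun p q : Fin n => p < q ∧ i ≤ p.val) π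

theorem inv_eq_L {n : ℕ} (i : ℕ) (π : Perm (Fin n)) : inv π = Lc i π + outer 0 (0 + i) π := by
  unfold inv Lc outer cntP
  rw [← Finset.card_union_of_disjoint]
  · congr 1
    ext ⟨p, q⟩
    simp only [Finset.mem_union, Finset.mem_filter, Finset.mem_univ, true_and]
    have := lt_or_ge q.val i
    constructor
    · rintro ⟨h1, h2⟩
      rcases this with h | h
      · left
        exact ⟨⟨h1, h⟩, h2⟩
      · right
        exact ⟨⟨h1, by right; omega⟩, h2⟩
    · rintro (⟨⟨h1, _⟩, h2⟩ | ⟨⟨h1, _⟩, h2⟩) <;> exact ⟨h1, h2⟩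
  · rw [Finset.disjoint_left]
    rintro ⟨p, q⟩
    simp only [Finset.mem_filter, Finset.mem_univ, true_and]
    rintro ⟨⟨_, h⟩, _⟩ ⟨⟨_, h'⟩, _⟩
    omega

theorem inv_eq_R {n : ℕ} (i s : ℕ) (hn : i + s = n) (π : Perm (Fin n)) :
    inv π = Rc i π + outer i (i + s) π := by
  unfold inv Rc outer cntP
  rw [← Finset.card_union_of_disjoint]
  · congr 1
    ext ⟨p, q⟩
    simp only [Finset.mem_union, Finset.mem_filter, Finset.mem_univ, true_and]
    have := lt_or_ge p.val i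
    have hq := q.isLt
    constructor
    · rintro ⟨h1, h2⟩
      rcases this with h | h
      · right
        exact ⟨⟨h1, by left; omega⟩, h2⟩
      · left
        exact ⟨⟨h1, h⟩, h2⟩
    · rintro (⟨⟨h1, _⟩, h2⟩ | ⟨⟨h1, _⟩, h2⟩) <;> exact ⟨h1, h2⟩
  · rw [Finset.disjoint_left]
    rintro ⟨p, q⟩
    simp only [Finset.mem_filter, Finset.mem_univ, true_and]
    have hq := q.isLt
    rintro ⟨⟨_, h⟩, _⟩ ⟨⟨_, h'⟩, _⟩
    omega

theorem inv_eq_cut {n : ℕ} (i : ℕ) (π : Perm (Fin n)) :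
    inv π = cut i π + (Lc i π + Rc i π) := by
  have h1 : outer 0 (0 + i) π = cut i π + Rc i π := by
    unfold outer cut Rc cntP
    rw [← Finset.card_union_of_disjoint]
    · congr 1
      ext ⟨p, q⟩
      simp only [Finset.mem_union, Finset.mem_filter, Finset.mem_univ, true_and, Fin.lt_def]
      constructor
      · rintro ⟨⟨h1, h2⟩, h3⟩
        rcases lt_or_ge p.val i with h | h
        · left
          exact ⟨⟨h, by omega⟩, h3⟩
        · right
          exact ⟨⟨h1, h⟩, h3⟩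
      · rintro (⟨⟨h1, h2⟩, h3⟩ | ⟨⟨h1, h2⟩, h3⟩)
        · exact ⟨⟨by omega, by right; omega⟩, h3⟩
        · exact ⟨⟨h1, by right; omega⟩, h3⟩
    · rw [Finset.disjoint_left]
      rintro ⟨p, q⟩
      simp only [Finset.mem_filter, Finset.mem_univ, true_and]
      rintro ⟨⟨h, _⟩, _⟩ ⟨⟨_, h'⟩, _⟩
      omega
  rw [inv_eq_L i π, h1]
  ring

theorem window_sum {n : ℕ} (a m : ℕ) (h : a + m ≤ n) (q : ℝ) (g : Perm (Fin n) → ℝ)
    (hg : ∀ π σ, g (π * ext a m h σ) = g π) (I : Perm (Fin n) → ℕ)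
    (hI : ∀ π, inv π = I π + outer a (a + m) π) :
    (m.factorial : ℝ) * ∑ π, g π * q ^ I π = (∑ σ : Perm (Fin m), q ^ inv σ) * ∑ π, g π := by
  have h1 : ∀ σ : Perm (Fin m), ∑ π : Perm (Fin n), g (π * ext a m h σ) * q ^ I (π * ext a m h σ) =
      ∑ π, g π * q ^ I π := by
    intro σ
    exact Equiv.sum_comp (Equiv.mulRight (ext a m h σ)) (fun π => g π * q ^ I π)
  have h2 : ∑ σ : Perm (Fin m), ∑ π : Perm (Fin n), g (π * ext a m h σ) * q ^ I (π * ext a m h σ) =
      (m.factorial : ℝ) * ∑ π, g π * q ^ I π := by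
    rw [Finset.sum_congr rfl (fun σ _ => h1 σ), Finset.sum_const, Finset.card_univ,
      Fintype.card_perm, Fintype.card_fin, nsmul_eq_mul]
  rw [← h2, Finset.sum_comm, Finset.mul_sum]
  apply Finset.sum_congr rfl
  intro π _
  obtain ⟨τ, hτ⟩ := inv_mul_ext a m h π
  have h3 : ∀ σ : Perm (Fin m), g (π * ext a m h σ) * q ^ I (π * ext a m h σ) =
      g π * q ^ inv (τ * σ) := by
    intro σ
    have h4 := hτ σ
    have h5 := hI (π * ext a m h σ)
    have h6 := outer_ext a m h σ π a (a + m) le_rfl le_rfl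
    rw [hg]
    congr 2
    omega
  rw [Finset.sum_congr rfl (fun σ _ => h3 σ), ← Finset.mul_sum, mul_comm]
  congr 1
  exact Equiv.sum_comp (Equiv.mulLeft τ) (fun σ => q ^ inv σ)

theorem sum_LR {n : ℕ} (i s : ℕ) (hn : i + s = n) (q : ℝ) :
    (i.factorial : ℝ) * (s.factorial : ℝ) * ∑ π : Perm (Fin n), q ^ (Lc i π + Rc i π) =
      (∑ σ : Perm (Fin i), q ^ inv σ) * (∑ σ : Perm (Fin s), q ^ inv σ) * (n.factorial : ℝ) := by
  have h1 := window_sum 0 i (by omega : 0 + i ≤ n) q (fun π => q ^ Rc i π) (by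
    intro π σ
    congr 1
    unfold Rc
    apply cntP_ext
    intro p q'
    have c1 := ext_cases 0 i (by omega : 0 + i ≤ n) σ p
    have c2 := ext_cases 0 i (by omega : 0 + i ≤ n) σ q'
    rw [Fin.lt_def, Fin.lt_def]
    omega) (Lc i) (inv_eq_L i)
  have h2 := window_sum i s (by omega : i + s ≤ n) q (fun _ => 1) (fun _ _ => rfl) (Rc i)
    (inv_eq_R i s hn)
  simp only [one_mul, Finset.sum_const, Finset.card_univ, Fintype.card_perm, Fintype.card_fin,
    nsmul_eq_mul, mul_one] at h2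
  have h3 : ∑ π : Perm (Fin n), q ^ (Lc i π + Rc i π) =
      ∑ π : Perm (Fin n), q ^ Rc i π * q ^ Lc i π := by
    apply Finset.sum_congr rfl
    intro π _
    rw [pow_add]
    ring
  rw [h3]
  calc (i.factorial : ℝ) * (s.factorial : ℝ) * ∑ π : Perm (Fin n), q ^ Rc i π * q ^ Lc i π
      = (s.factorial : ℝ) * ((i.factorial : ℝ) * ∑ π : Perm (Fin n), q ^ Rc i π * q ^ Lc i π) := by
        ring
    _ = (∑ σ : Perm (Fin i), q ^ inv σ) * ((s.factorial : ℝ) * ∑ π : Perm (Fin n), q ^ Rc i π) := by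
        rw [h1]
        ring
    _ = _ := by
        rw [h2]
        ring

open Classical in
/-- permutations with `k + 1` inversions and at least `i s / 2` inversions across the cut `i` -/
theorem cut_bound {n : ℕ} (i s k : ℕ) (hn : i + s = n) {h : ℝ} (hh : 0 < h)
    (hr : rat n k = Real.exp (-(2 * h))) (hpos : 0 < mah n (k + 1)) (W : ℝ) (hW0 : 0 ≤ W)
    (hW : (∏ j ∈ range i, u h j) * (∏ j ∈ range s, u h j) * W ≤ ∏ j ∈ range n, u h j) :
    ((univ.filter (fun π : Perm (Fin n) => inv π = k + 1 ∧ i * s ≤ 2 * cut i π)).card : ℝ) * W ≤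
      ((n * (n - 1) / 2 + 1 : ℕ) : ℝ) * mah n (k + 1) := by
  set q : ℝ := Real.exp (-(2 * h)) with hq
  have hq0 : 0 < q := Real.exp_pos _
  set B := univ.filter (fun π : Perm (Fin n) => inv π = k + 1 ∧ i * s ≤ 2 * cut i π) with hB
  -- Chernoff
  have h1 : (B.card : ℝ) * q ^ (k + 1) ≤
      Real.exp (-(h * ((i : ℝ) * s))) * ∑ π : Perm (Fin n), q ^ (Lc i π + Rc i π) := by
    have h2 : (B.card : ℝ) * q ^ (k + 1) ≤
        ∑ π ∈ B, Real.exp (-(h * ((i : ℝ) * s))) * q ^ (Lc i π + Rc i π) := by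
      rw [← nsmul_eq_mul, ← Finset.sum_const]
      apply Finset.sum_le_sum
      intro π hπ
      rw [hB, Finset.mem_filter] at hπ
      obtain ⟨_, h3, h4⟩ := hπ
      have h5 := inv_eq_cut i π
      rw [← h3, hq, ← Real.exp_nat_mul, ← Real.exp_nat_mul, ← Real.exp_add, Real.exp_le_exp]
      have h6 : ((inv π : ℕ) : ℝ) = cut i π + ((Lc i π + Rc i π : ℕ) : ℝ) := by
        exact_mod_cast h5
      have h7 : (i : ℝ) * s ≤ 2 * cut i π := by exact_mod_cast h4
      rw [h6]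
      nlinarith
    refine h2.trans ?_
    rw [Finset.mul_sum]
    apply Finset.sum_le_univ_sum_of_nonneg
    intro π
    positivity
  have h2 := sum_LR i s hn q
  rw [hq, gf_exp, gf_exp, ← hq] at h2
  have hgf := gf_le n k hpos
  rw [hr, gf_exp] at hgf
  have hi : (0 : ℝ) < i.factorial := by exact_mod_cast Nat.factorial_pos i
  have hs : (0 : ℝ) < s.factorial := by exact_mod_cast Nat.factorial_pos s
  have hnf : (0 : ℝ) < n.factorial := by exact_mod_cast Nat.factorial_pos n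
  have h3 : ∑ π : Perm (Fin n), q ^ (Lc i π + Rc i π) =
      Real.exp (-(h * ((i : ℝ) * ((i : ℝ) - 1) / 2))) *
      Real.exp (-(h * ((s : ℝ) * ((s : ℝ) - 1) / 2))) * (n.factorial : ℝ) *
      ((∏ j ∈ range i, u h j) * (∏ j ∈ range s, u h j)) := by
    have hne : (i.factorial : ℝ) * (s.factorial : ℝ) ≠ 0 := by positivity
    apply mul_left_cancel₀ hne
    rw [h2]
    ring
  rw [h3] at h1
  have hexp : Real.exp (-(h * ((i : ℝ) * s))) *
      (Real.exp (-(h * ((i : ℝ) * ((i : ℝ) - 1) / 2))) *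
      Real.exp (-(h * ((s : ℝ) * ((s : ℝ) - 1) / 2)))) =
      Real.exp (-(h * ((n : ℝ) * ((n : ℝ) - 1) / 2))) := by
    rw [← Real.exp_add, ← Real.exp_add, ← hn]
    congr 1
    push_cast
    ring
  have h4 : (B.card : ℝ) * W * q ^ (k + 1) ≤
      Real.exp (-(h * ((n : ℝ) * ((n : ℝ) - 1) / 2))) * (n.factorial : ℝ) *
        ∏ j ∈ range n, u h j := by
    calc (B.card : ℝ) * W * q ^ (k + 1) = ((B.card : ℝ) * q ^ (k + 1)) * W := by ring
      _ ≤ (Real.exp (-(h * ((i : ℝ) * s))) *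
          (Real.exp (-(h * ((i : ℝ) * ((i : ℝ) - 1) / 2))) *
          Real.exp (-(h * ((s : ℝ) * ((s : ℝ) - 1) / 2))) * (n.factorial : ℝ) *
          ((∏ j ∈ range i, u h j) * (∏ j ∈ range s, u h j)))) * W :=
          mul_le_mul_of_nonneg_right h1 hW0
      _ = (Real.exp (-(h * ((i : ℝ) * s))) *
          (Real.exp (-(h * ((i : ℝ) * ((i : ℝ) - 1) / 2))) *
          Real.exp (-(h * ((s : ℝ) * ((s : ℝ) - 1) / 2))))) * (n.factorial : ℝ) *
          ((∏ j ∈ range i, u h j) * (∏ j ∈ range s, u h j) * W) := by ring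
      _ = Real.exp (-(h * ((n : ℝ) * ((n : ℝ) - 1) / 2))) * (n.factorial : ℝ) *
          ((∏ j ∈ range i, u h j) * (∏ j ∈ range s, u h j) * W) := by rw [hexp]
      _ ≤ _ := mul_le_mul_of_nonneg_left hW (by positivity)
  have h5 : (B.card : ℝ) * W * q ^ (k + 1) ≤
      ((n * (n - 1) / 2 + 1 : ℕ) : ℝ) * mah n (k + 1) * q ^ (k + 1) := by
    refine (h4.trans hgf).trans (le_of_eq ?_)
    ring
  exact le_of_mul_le_mul_right h5 (by positivity)

end MP8386ec
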