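import Pool.Agent.Lib_MP_8386ec_mi.Chains

/-!
Mahonian numbers, and classes of permutations obtained by rearranging the letters in a window of
positions.
-/

namespace MP8386ec

open Equiv Finset

open Classical in
/-- Mahonian numbers -/
noncomputable def mah (m j : ℕ) : ℕ := (univ.filter (fun σ : Perm (Fin m) => inv σ = j)).card

theorem inv_add_inv_rev {m : ℕ} (σ : Perm (Fin m)) :
    2 * (inv σ + inv (σ * Fin.revPerm)) = m * (m - 1) := by
  have h1 : inv (σ * Fin.revPerm) =
      (univ.filter (fun p : Fin m × Fin m => p.1 < p.2 ∧ σ p.1 < σ p.2)).card := by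
    unfold inv
    apply Finset.card_equiv ((Equiv.prodComm _ _).trans (Fin.revPerm.prodCongr Fin.revPerm))
    rintro ⟨p, q⟩
    simp [Perm.mul_apply]
  have h2 : inv σ + inv (σ * Fin.revPerm) =
      (univ.filter (fun p : Fin m × Fin m => p.1 < p.2)).card := by
    rw [h1]
    unfold inv
    rw [← Finset.card_union_of_disjoint]
    · congr 1
      ext ⟨p, q⟩
      simp only [Finset.mem_union, Finset.mem_filter, Finset.mem_univ, true_and]
      constructor
      · rintro (h | h) <;> exact h.1
      · intro h
        have hne : σ p ≠ σ q := fun hh => h.ne (σ.injective hh)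
        rcases lt_or_gt_of_ne hne with h' | h'
        · right
          exact ⟨h, h'⟩
        · left
          exact ⟨h, h'⟩
    · rw [Finset.disjoint_left]
      rintro ⟨p, q⟩
      simp only [Finset.mem_filter, Finset.mem_univ, true_and, not_and]
      rintro ⟨_, h⟩ _ h'
      exact absurd h (not_lt.mpr h'.le)
  have h3 : (univ.filter (fun p : Fin m × Fin m => p.1 < p.2)).card
      = (univ.filter (fun p : Fin m × Fin m => p.2 < p.1)).card := by
    apply Finset.card_equiv (Equiv.prodComm _ _)
    rintro ⟨p, q⟩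
    simp
  have h4 : (univ.filter (fun p : Fin m × Fin m => p.1 < p.2)).card
      + (univ.filter (fun p : Fin m × Fin m => p.2 < p.1)).card
      = (Finset.offDiag (univ : Finset (Fin m))).card := by
    rw [← Finset.card_union_of_disjoint]
    · congr 1
      ext ⟨p, q⟩
      simp only [Finset.mem_union, Finset.mem_filter, Finset.mem_univ, true_and,
        Finset.mem_offDiag]
      exact ne_iff_lt_or_gt.symm
    · rw [Finset.disjoint_left]
      rintro ⟨p, q⟩
      simp only [Finset.mem_filter, Finset.mem_univ, true_and]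
      intro h h'
      exact absurd h (not_lt.mpr h'.le)
  rw [Finset.offDiag_card, Finset.card_univ, Fintype.card_fin] at h4
  rw [h2, Nat.mul_sub, mul_one]
  omega

theorem mah_symm (m i j : ℕ) (h : 2 * (i + j) = m * (m - 1)) : mah m i = mah m j := by
  classical
  unfold mah
  apply Finset.card_equiv (Equiv.mulRight (Fin.revPerm : Perm (Fin m)))
  intro σ
  have := inv_add_inv_rev σ
  simp only [Finset.mem_filter, Finset.mem_univ, true_and, Equiv.coe_mulRight]
  omega

theorem two_dvd_mul_pred (m : ℕ) : ∃ N, m * (m - 1) = 2 * N := by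
  rcases m with _ | m
  · exact ⟨0, by simp⟩
  · rw [Nat.add_sub_cancel, mul_comm]
    obtain ⟨N, hN⟩ := (Nat.even_mul_succ_self m).two_dvd
    exact ⟨N, hN⟩

theorem mah_desc (m j : ℕ) (h : m * (m - 1) < 4 * (j + 1)) : mah m (j + 1) ≤ mah m j := by
  classical
  have := lower_card (n := m) (fun _ => True) (fun _ _ _ _ _ h => h) j h
  simpa [mah] using this

theorem mah_mono (m j : ℕ) (h : 4 * j < m * (m - 1)) : mah m j ≤ mah m (j + 1) := by
  obtain ⟨N, hN⟩ := two_dvd_mul_pred m
  rw [mah_symm m j (N - (j + 1) + 1) (by omega), mah_symm m (j + 1) (N - (j + 1)) (by omega)]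
  apply mah_desc
  omega

/-- the window `[a, a + m)` -/
def win {n : ℕ} (a m : ℕ) (h : a + m ≤ n) : Fin m ↪ Fin n :=
  ⟨fun j => ⟨a + j.val, by have := j.isLt; omega⟩, by
    intro i j hij
    simp only [Fin.mk.injEq] at hij
    exact Fin.ext (by omega)⟩

/-- rearrangement of the positions in the window -/
noncomputable def ext {n : ℕ} (a m : ℕ) (h : a + m ≤ n) : Perm (Fin m) →* Perm (Fin n) :=
  Perm.viaEmbeddingHom (win a m h)

theorem ext_win {n : ℕ} (a m : ℕ) (h : a + m ≤ n) (σ : Perm (Fin m)) (j : Fin m) :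
    ext a m h σ (win a m h j) = win a m h (σ j) := by
  unfold ext
  rw [Perm.viaEmbeddingHom_apply, Perm.viaEmbedding_apply]

theorem ext_out {n : ℕ} (a m : ℕ) (h : a + m ≤ n) (σ : Perm (Fin m)) (x : Fin n)
    (hx : x.val < a ∨ a + m ≤ x.val) : ext a m h σ x = x := by
  unfold ext
  rw [Perm.viaEmbeddingHom_apply, Perm.viaEmbedding_apply_of_notMem]
  rintro ⟨j, rfl⟩
  have := j.isLt
  simp only [win, Function.Embedding.coeFn_mk] at hx
  omega

theorem ext_cases {n : ℕ} (a m : ℕ) (h : a + m ≤ n) (σ : Perm (Fin m)) (x : Fin n) :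
    ((x.val < a ∨ a + m ≤ x.val) ∧ (ext a m h σ x).val = x.val) ∨
    (a ≤ x.val ∧ x.val < a + m ∧ a ≤ (ext a m h σ x).val ∧ (ext a m h σ x).val < a + m) := by
  by_cases hx : x.val < a ∨ a + m ≤ x.val
  · left
    exact ⟨hx, by rw [ext_out a m h σ x hx]⟩
  · right
    push Not at hx
    have hx' : x = win a m h ⟨x.val - a, by omega⟩ := by
      ext
      simp only [win, Function.Embedding.coeFn_mk]
      omega
    refine ⟨hx.1, hx.2, ?_, ?_⟩
    · rw [hx', ext_win]
      simp [win]
    · rw [hx', ext_win]
      simp [win]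

/-- number of inversions `(p, q)` with `p < a` or `b ≤ q` -/
def outer {n : ℕ} (a b : ℕ) (π : Perm (Fin n)) : ℕ :=
  (univ.filter (fun p : Fin n × Fin n => (p.1 < p.2 ∧ (p.1.val < a ∨ b ≤ p.2.val)) ∧
    π p.2 < π p.1)).card

theorem outer_ext {n : ℕ} (a m : ℕ) (h : a + m ≤ n) (σ : Perm (Fin m)) (π : Perm (Fin n))
    (a' b' : ℕ) (ha : a' ≤ a) (hb : a + m ≤ b') :
    outer a' b' (π * ext a m h σ) = outer a' b' π := by
  unfold outer
  apply Finset.card_equiv ((ext a m h σ).prodCongr (ext a m h σ))
  rintro ⟨p, q⟩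
  simp only [Finset.mem_filter, Finset.mem_univ, true_and, Equiv.prodCongr_apply, Prod.map_apply,
    Perm.mul_apply]
  have h1 := ext_cases a m h σ p
  have h2 := ext_cases a m h σ q
  apply and_congr_left'
  rw [Fin.lt_def, Fin.lt_def]
  omega

theorem outer_mono {n : ℕ} (a b a' b' : ℕ) (ha : a' ≤ a) (hb : b ≤ b') (π : Perm (Fin n)) :
    outer a' b' π ≤ outer a b π := by
  unfold outer
  apply Finset.card_le_card
  rintro ⟨p, q⟩
  simp only [Finset.mem_filter, Finset.mem_univ, true_and]
  rintro ⟨⟨h1, h2⟩, h3⟩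
  exact ⟨⟨h1, by omega⟩, h3⟩

/-- standardization of an injective word -/
theorem standardize {m n : ℕ} (f : Fin m → Fin n) (hf : Function.Injective f) :
    ∃ τ : Perm (Fin m), ∀ i j, f i < f j ↔ τ i < τ j := by
  set T : Finset (Fin n) := univ.image f with hT
  have hc : T.card = m := by
    rw [hT, Finset.card_image_of_injective _ hf]
    simp
  set o := T.orderIsoOfFin hc
  have hg : Function.Bijective (fun i : Fin m => (⟨f i, by simp [hT]⟩ : T)) := by
    rw [Fintype.bijective_iff_injective_and_card]
    refine ⟨?_, ?_⟩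
    · intro i j hij
      exact hf (congrArg Subtype.val hij)
    · simp [hc]
  refine ⟨(Equiv.ofBijective _ hg).trans o.symm.toEquiv, ?_⟩
  intro i j
  simp only [Equiv.trans_apply, Equiv.ofBijective_apply]
  change f i < f j ↔ o.symm _ < o.symm _
  rw [OrderIso.lt_iff_lt]
  rfl

theorem inv_mul_ext {n : ℕ} (a m : ℕ) (h : a + m ≤ n) (π : Perm (Fin n)) :
    ∃ τ : Perm (Fin m), ∀ σ : Perm (Fin m),
      inv (π * ext a m h σ) = inv (τ * σ) + outer a (a + m) π := by
  obtain ⟨τ, hτ⟩ := standardize (fun j => π (win a m h j))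
    (π.injective.comp (win a m h).injective)
  refine ⟨τ, fun σ => ?_⟩
  rw [← outer_ext a m h σ π a (a + m) le_rfl le_rfl]
  have h1 : inv (τ * σ) = (univ.filter (fun p : Fin n × Fin n =>
      (p.1 < p.2 ∧ ¬ (p.1.val < a ∨ a + m ≤ p.2.val)) ∧
      (π * ext a m h σ) p.2 < (π * ext a m h σ) p.1)).card := by
    unfold inv
    apply Finset.card_bij (fun (x : Fin m × Fin m) _ => (win a m h x.1, win a m h x.2))
    · rintro ⟨i, j⟩ hij
      simp only [Finset.mem_filter, Finset.mem_univ, true_and, Perm.mul_apply] at hij ⊢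
      rw [ext_win, ext_win]
      refine ⟨⟨?_, ?_⟩, (hτ _ _).mpr hij.2⟩
      · rw [Fin.lt_def]
        have := Fin.lt_def.mp hij.1
        simp [win]
        omega
      · have := i.isLt
        have := j.isLt
        simp [win]
    · rintro ⟨i, j⟩ _ ⟨i', j'⟩ _ he
      simp only [Prod.mk.injEq] at he
      rw [(win a m h).injective he.1, (win a m h).injective he.2]
    · rintro ⟨p, q⟩ hpq
      simp only [Finset.mem_filter, Finset.mem_univ, true_and] at hpq
      obtain ⟨⟨h1, h2⟩, h3⟩ := hpq
      rw [Fin.lt_def] at h1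
      push Not at h2
      obtain ⟨i, hi⟩ : ∃ i : Fin m, win a m h i = p := by
        refine ⟨⟨p.val - a, by omega⟩, ?_⟩
        ext
        simp only [win, Function.Embedding.coeFn_mk]
        omega
      obtain ⟨j, hj⟩ : ∃ j : Fin m, win a m h j = q := by
        refine ⟨⟨q.val - a, by omega⟩, ?_⟩
        ext
        simp only [win, Function.Embedding.coeFn_mk]
        omega
      refine ⟨(i, j), ?_, by rw [hi, hj]⟩
      simp only [Finset.mem_filter, Finset.mem_univ, true_and, Perm.mul_apply]
      refine ⟨?_, ?_⟩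
      · rw [← hi, ← hj] at h1
        simp only [win, Function.Embedding.coeFn_mk] at h1
        rw [Fin.lt_def]
        omega
      · rw [← hi, ← hj, Perm.mul_apply, Perm.mul_apply, ext_win, ext_win] at h3
        exact (hτ _ _).mp h3
  rw [h1]
  unfold inv outer
  rw [← Finset.card_union_of_disjoint]
  · congr 1
    ext ⟨p, q⟩
    simp only [Finset.mem_union, Finset.mem_filter, Finset.mem_univ, true_and]
    tauto
  · rw [Finset.disjoint_left]
    rintro ⟨p, q⟩
    simp only [Finset.mem_filter, Finset.mem_univ, true_and, not_and]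
    tauto

/-- the number of rearrangements of the window with `k` inversions -/
theorem card_ext {n : ℕ} (a m : ℕ) (h : a + m ≤ n) (π : Perm (Fin n)) (k : ℕ) :
    (univ.filter (fun σ : Perm (Fin m) => inv (π * ext a m h σ) = k)).card =
      if outer a (a + m) π ≤ k then mah m (k - outer a (a + m) π) else 0 := by
  classical
  obtain ⟨τ, hτ⟩ := inv_mul_ext a m h π
  have h1 : (univ.filter (fun σ : Perm (Fin m) => inv (π * ext a m h σ) = k)).card =
      (univ.filter (fun σ : Perm (Fin m) => inv σ + outer a (a + m) π = k)).card := by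
    apply Finset.card_equiv (Equiv.mulLeft τ)
    intro σ
    simp only [Finset.mem_filter, Finset.mem_univ, true_and, Equiv.coe_mulLeft]
    rw [hτ σ]
  rw [h1]
  split_ifs with hk
  · unfold mah
    congr 1
    ext σ
    simp only [Finset.mem_filter, Finset.mem_univ, true_and]
    omega
  · rw [Finset.card_eq_zero, Finset.filter_eq_empty_iff]
    intro σ _
    omega

open Classical in
/-- double counting over the rearrangements of the window -/
theorem window_double {n : ℕ} (a m : ℕ) (h : a + m ≤ n) (G : Perm (Fin n) → Prop)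
    (hG : ∀ π σ, G π → G (π * ext a m h σ)) (k : ℕ) :
    m.factorial * (univ.filter (fun π : Perm (Fin n) => G π ∧ inv π = k)).card =
      ∑ π ∈ univ.filter G, (if outer a (a + m) π ≤ k then mah m (k - outer a (a + m) π) else 0) := by
  have h1 : ∀ σ : Perm (Fin m),
      (univ.filter (fun π : Perm (Fin n) => G π ∧ inv (π * ext a m h σ) = k)).card =
      (univ.filter (fun π : Perm (Fin n) => G π ∧ inv π = k)).card := by
    intro σ
    apply Finset.card_equiv (Equiv.mulRight (ext a m h σ))
    intro π
    simp only [Finset.mem_filter, Finset.mem_univ, true_and, Equiv.coe_mulRight]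
    apply and_congr_left'
    constructor
    · exact hG π σ
    · intro hh
      have := hG _ σ⁻¹ hh
      rw [mul_assoc, ← map_mul, mul_inv_cancel, map_one, mul_one] at this
      exact this
  have h2 : ∑ σ : Perm (Fin m),
      (univ.filter (fun π : Perm (Fin n) => G π ∧ inv (π * ext a m h σ) = k)).card =
      m.factorial * (univ.filter (fun π : Perm (Fin n) => G π ∧ inv π = k)).card := by
    rw [Finset.sum_congr rfl (fun σ _ => h1 σ), Finset.sum_const, Finset.card_univ,
      Fintype.card_perm, Fintype.card_fin, smul_eq_mul]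
  rw [← h2]
  have h3 : ∀ σ : Perm (Fin m),
      (univ.filter (fun π : Perm (Fin n) => G π ∧ inv (π * ext a m h σ) = k)).card =
      ∑ π ∈ univ.filter G, if inv (π * ext a m h σ) = k then 1 else 0 := by
    intro σ
    rw [← Finset.filter_filter, Finset.card_filter]
  rw [Finset.sum_congr rfl (fun σ _ => h3 σ), Finset.sum_comm]
  apply Finset.sum_congr rfl
  intro π _
  rw [← Finset.card_filter, ← card_ext a m h π k]

open Classical in
/-- monotonicity on a family of window classes -/
theorem window_mono {n : ℕ} (a m : ℕ) (h : a + m ≤ n) (G : Perm (Fin n) → Prop)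
    (hG : ∀ π σ, G π → G (π * ext a m h σ)) (k : ℕ)
    (hk : ∀ π, G π → 4 * k < m * (m - 1) + 4 * outer a (a + m) π) :
    (univ.filter (fun π : Perm (Fin n) => G π ∧ inv π = k)).card ≤
      (univ.filter (fun π : Perm (Fin n) => G π ∧ inv π = k + 1)).card := by
  have h1 := window_double a m h G hG k
  have h2 := window_double a m h G hG (k + 1)
  have h3 : m.factorial * (univ.filter (fun π : Perm (Fin n) => G π ∧ inv π = k)).card ≤
      m.factorial * (univ.filter (fun π : Perm (Fin n) => G π ∧ inv π = k + 1)).card := by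
    rw [h1, h2]
    apply Finset.sum_le_sum
    intro π hπ
    simp only [Finset.mem_filter, Finset.mem_univ, true_and] at hπ
    have h4 := hk π hπ
    split_ifs with h5 h6
    · have h7 := mah_mono m (k - outer a (a + m) π) (by omega)
      rw [show k + 1 - outer a (a + m) π = k - outer a (a + m) π + 1 by omega]
      exact h7
    · omega
    · exact Nat.zero_le _
    · exact le_rfl
  exact Nat.le_of_mul_le_mul_left h3 (Nat.factorial_pos m)

end MP8386ec
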